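import Mathlib
import Pool.Agent.Helper770.EdgeSep

/-!
# Sub-drawings, and the nodes on a part of an edge
-/

set_option autoImplicit false

namespace Pool.Agent.U514.PD

open Finset Pool.Agent.Helper770.Crossing Pool.Agent.Helper770.Sep Pool.Agent.Helper770.Planar
  Pool.Agent.Helper770.EdgeSep

variable {V : Type*} {G : SimpleGraph V}

/-- the drawing of a subgraph -/
def sub (D : Drawing G) (H : SimpleGraph V) (h : H ≤ G) : Drawing H where
  pos := D.pos
  pos_injective := D.pos_injective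
  arc := D.arc
  arc_continuousOn e he := D.arc_continuousOn e (SimpleGraph.edgeSet_mono h he)
  arc_injOn e he := D.arc_injOn e (SimpleGraph.edgeSet_mono h he)
  arc_ends u v huv := D.arc_ends u v (h huv)
  arc_avoids e he := D.arc_avoids e (SimpleGraph.edgeSet_mono h he)

lemma sub_crossings (D : Drawing G) (H : SimpleGraph V) (h : H ≤ G) :
    (sub D H h).crossings ⊆ D.crossings := by
  rintro x ⟨e, he, f, hf, hef, h1, h2, h3⟩
  exact ⟨e, SimpleGraph.edgeSet_mono h he, f, SimpleGraph.edgeSet_mono h hf, hef, h1, h2, h3⟩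

/-- The nodes on a part of an edge form a connected set. -/
lemma part_nodes_conn (D : Drawing G) (N : Finset ℂ)
    (e : Sym2 V) (he : e ∈ G.edgeSet) (J : Set ℝ) (hJ : J.OrdConnected) (hJ1 : J ⊆ Set.Icc 0 1)
    (Ne : Finset N) (hne : Ne.Nonempty)
    (hNe : ∀ z : N, z ∈ Ne ↔ ∃ t ∈ J, D.arc e t = z) :
    Conn (planar D N) Ne := by
  classical
  refine conn_of_induct hne ?_
  rintro p ⟨a₀, ha₀, hpa₀⟩ hs
  by_contra hcon
  push Not at hcon
  obtain ⟨b₀, hb₀, hpb₀⟩ := hcon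
  have hτ : ∀ z : N, ∃ t : ℝ, z ∈ Ne → t ∈ J ∧ D.arc e t = z := by
    intro z
    by_cases h : z ∈ Ne
    · obtain ⟨t, ht, hz⟩ := (hNe z).mp h
      exact ⟨t, fun _ => ⟨ht, hz⟩⟩
    · exact ⟨0, fun h' => absurd h' h⟩
  choose τ hτ using hτ
  have hinj : ∀ x ∈ Ne, ∀ y ∈ Ne, τ x = τ y → x = y := by
    intro x hx y hy hxy
    apply Subtype.ext
    rw [← (hτ x hx).2, ← (hτ y hy).2, hxy]
  obtain ⟨⟨a, b⟩, hab, hmin⟩ := exists_min_image
    ((Ne.filter p) ×ˢ (Ne.filter (fun x => ¬ p x))) (fun x => |τ x.1 - τ x.2|)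
    ⟨(a₀, b₀), by simp [ha₀, hpa₀, hb₀, hpb₀]⟩
  simp only [mem_product, mem_filter] at hab hmin
  obtain ⟨⟨ha, hpa⟩, hb, hpb⟩ := hab
  have hne : a ≠ b := fun h => hpb (h ▸ hpa)
  have hτne : τ a ≠ τ b := fun h => hne (hinj a ha b hb h)
  have haJ := hJ1 (hτ a ha).1
  have hbJ := hJ1 (hτ b hb).1
  -- no node strictly between
  have hbetween : ∀ r, (τ a < r ∧ r < τ b ∨ τ b < r ∧ r < τ a) → D.arc e r ∉ N := by
    intro r hr hrN
    have hrJ : r ∈ J := by
      rcases hr with hr | hr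
      · exact hJ.out (hτ a ha).1 (hτ b hb).1 ⟨hr.1.le, hr.2.le⟩
      · exact hJ.out (hτ b hb).1 (hτ a ha).1 ⟨hr.1.le, hr.2.le⟩
    have hr01 : r ∈ Set.Icc (0 : ℝ) 1 := hJ1 hrJ
    have hx : (⟨D.arc e r, hrN⟩ : N) ∈ Ne := (hNe _).mpr ⟨r, hrJ, rfl⟩
    have hτx : τ ⟨D.arc e r, hrN⟩ = r :=
      D.arc_injOn e he (hJ1 (hτ _ hx).1) hr01 (hτ _ hx).2
    by_cases hpx : p ⟨D.arc e r, hrN⟩
    · have := hmin (⟨D.arc e r, hrN⟩, b) ⟨⟨hx, hpx⟩, hb, hpb⟩
      simp only [hτx] at this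
      rcases hr with hr | hr
      · rw [abs_of_neg (by linarith), abs_of_neg (by linarith)] at this; linarith
      · rw [abs_of_pos (by linarith), abs_of_pos (by linarith)] at this; linarith
    · have := hmin (a, ⟨D.arc e r, hrN⟩) ⟨⟨ha, hpa⟩, hx, hpx⟩
      simp only [hτx] at this
      rcases hr with hr | hr
      · rw [abs_of_neg (by linarith), abs_of_neg (by linarith)] at this; linarith
      · rw [abs_of_pos (by linarith), abs_of_pos (by linarith)] at this; linarith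
  have hadj : (planar D N).Adj a b := by
    refine ⟨hne, ?_⟩
    rcases lt_or_gt_of_ne hτne with h | h
    · exact ⟨e, τ a, τ b, ⟨he, haJ.1, h, hbJ.2,
        fun r h1 h2 => hbetween r (Or.inl ⟨h1, h2⟩)⟩, Or.inl ⟨(hτ a ha).2, (hτ b hb).2⟩⟩
    · exact ⟨e, τ b, τ a, ⟨he, hbJ.1, h, haJ.2,
        fun r h1 h2 => hbetween r (Or.inr ⟨h1, h2⟩)⟩, Or.inr ⟨(hτ b hb).2, (hτ a ha).2⟩⟩
  exact hpb (hs a ha b hb hadj hpa)

/-- **Grouping**: if every connected set outside of `S` has at most half of the weight, then the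
nodes outside of `S` are divided into two sides without edges between them, each with at most two
thirds of the weight. -/
theorem grouping {Z : Type*} [Fintype Z] [DecidableEq Z] (P : SimpleGraph Z) (w : Z → ℕ)
    (S : Finset Z) (hS : ∀ T, Conn P T → Disjoint T S → 2 * ∑ z ∈ T, w z ≤ ∑ z, w z) :
    ∃ A B : Finset Z, Disjoint A S ∧ Disjoint B S ∧ Disjoint A B ∧
      (∀ z, z ∈ S ∨ z ∈ A ∨ z ∈ B) ∧ (∀ x ∈ A, ∀ y ∈ B, ¬ P.Adj x y) ∧
      3 * ∑ z ∈ A, w z ≤ 2 * ∑ z, w z ∧ 3 * ∑ z ∈ B, w z ≤ 2 * ∑ z, w z := by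
  classical
  -- closed sets
  obtain ⟨Cl, hCl⟩ : ∃ Cl : Finset Z → Prop, ∀ A, Cl A ↔ Disjoint A S ∧
    ∀ x ∈ A, ∀ y, P.Adj x y → y ∈ A ∨ y ∈ S := ⟨_, fun _ => Iff.rfl⟩
  obtain ⟨A, hA, hmax⟩ := Finset.exists_max_image
    ((univ : Finset (Finset Z)).filter (fun A => Cl A ∧ 3 * ∑ z ∈ A, w z ≤ 2 * ∑ z, w z))
    (fun A => ∑ z ∈ A, w z) ⟨∅, by simp [hCl]⟩
  simp only [mem_filter, mem_univ, true_and] at hA hmax
  obtain ⟨hA1, hA2⟩ := hA
  obtain ⟨hAS, hAcl⟩ := (hCl A).1 hA1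
  refine ⟨A, (univ \ S) \ A, hAS, ?_, ?_, ?_, ?_, hA2, ?_⟩
  · exact disjoint_left.2 fun x hx => (mem_sdiff.1 (mem_sdiff.1 hx).1).2
  · exact disjoint_left.2 fun x hx hx' => (mem_sdiff.1 hx').2 hx
  · intro z
    by_cases h1 : z ∈ S
    · exact Or.inl h1
    · by_cases h2 : z ∈ A
      · exact Or.inr (Or.inl h2)
      · exact Or.inr (Or.inr (by simp [h1, h2]))
  · intro x hx y hy hxy
    rw [mem_sdiff, mem_sdiff] at hy
    rcases hAcl x hx y hxy with h | h
    · exact hy.2 h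
    · exact hy.1.2 h
  · by_contra hcon
    push Not at hcon
    have hsum : ∑ z ∈ A, w z + ∑ z ∈ (univ \ S) \ A, w z ≤ ∑ z, w z := by
      rw [← sum_union (disjoint_left.2 fun x hx hx' => (mem_sdiff.1 hx').2 hx)]
      exact sum_le_sum_of_subset (subset_univ _)
    obtain ⟨z, hz, hwz⟩ : ∃ z ∈ (univ \ S) \ A, 0 < w z := by
      by_contra hno
      push Not at hno
      have : ∑ z ∈ (univ \ S) \ A, w z = 0 := sum_eq_zero fun z hz => by
        have := hno z hz
        omega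
      omega
    rw [mem_sdiff, mem_sdiff] at hz
    obtain ⟨T, hT1, hT2, hT3, hT4⟩ := exists_max_conn (S := S) (conn_singleton P z)
      (by rw [disjoint_singleton_left]; exact hz.1.2)
    have hzT : z ∈ T := hT1 (mem_singleton_self z)
    have hTA : Disjoint T A := by
      rw [disjoint_left]
      have h1 := hT2.induct (fun x => x ∉ A) hzT hz.2 (by
        intro x hx y hy hxy hxA hyA
        rcases hAcl y hyA x hxy.symm with h | h
        · exact hxA h
        · exact disjoint_left.1 hT3 hx h)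
      exact h1
    have hTw := hS T hT2 hT3
    have hTcl : Cl T := (hCl T).2 ⟨hT3, hT4⟩
    have h1 := hmax T ⟨hTcl, by omega⟩
    have hUcl : Cl (A ∪ T) := by
      rw [hCl]
      refine ⟨disjoint_union_left.2 ⟨hAS, hT3⟩, ?_⟩
      intro x hx y hxy
      rcases mem_union.1 hx with hx | hx
      · rcases hAcl x hx y hxy with h | h
        · exact Or.inl (mem_union_left _ h)
        · exact Or.inr h
      · rcases hT4 x hx y hxy with h | h
        · exact Or.inl (mem_union_right _ h)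
        · exact Or.inr h
    have hUw : ∑ z ∈ A ∪ T, w z = ∑ z ∈ A, w z + ∑ z ∈ T, w z := sum_union hTA.symm
    have hTpos : 0 < ∑ z ∈ T, w z := lt_of_lt_of_le hwz (single_le_sum (f := w)
      (fun _ _ => Nat.zero_le _) hzT)
    by_cases h2 : 3 * ∑ z ∈ A ∪ T, w z ≤ 2 * ∑ z, w z
    · have h3 := hmax (A ∪ T) ⟨hUcl, h2⟩
      omega
    · omega

end Pool.Agent.U514.PD
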