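import Mathlib
import Pool.Agent.U514.PD.Sub

/-!
# Dividing a region of a drawn graph

A region of a graph `G` drawn in the plane consists of a set `I` of inner vertices and a set `B` of
boundary vertices which contains all neighbours of `I` outside of `I`.  Only the edges that meet `I`
and their crossings count.  The region is divided into two by the removal of few vertices.
-/

set_option autoImplicit false

namespace Pool.Agent.U514.PD

open Finset Pool.Agent.Helper770.Crossing Pool.Agent.Helper770.Sep Pool.Agent.Helper770.Planar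
  Pool.Agent.Helper770.EdgeSep

section fiber

lemma fiber_le {β : Type*} (s s₁ : Finset β) (f : β → ℂ) (g : β → ℕ) (N : Finset ℂ)
    (T : Finset N) (hs : s₁ ⊆ s) (h : ∀ b ∈ s₁, ∃ z ∈ T, f b = (z : ℂ)) :
    ∑ b ∈ s₁, g b ≤ ∑ z ∈ T, ∑ b ∈ s, (if f b = (z : ℂ) then g b else 0) := by
  classical
  rw [sum_comm]
  calc ∑ b ∈ s₁, g b ≤ ∑ b ∈ s₁, ∑ z ∈ T, (if f b = (z : ℂ) then g b else 0) := by
        apply sum_le_sum
        intro b hb
        obtain ⟨z, hz, hbz⟩ := h b hb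
        calc g b = (if f b = (z : ℂ) then g b else 0) := by rw [if_pos hbz]
          _ ≤ _ := single_le_sum (f := fun z : N => (if f b = (z : ℂ) then g b else 0))
            (fun _ _ => Nat.zero_le _) hz
    _ ≤ _ := sum_le_sum_of_subset hs

lemma fiber_total {β : Type*} (s : Finset β) (f : β → ℂ) (g : β → ℕ) (N : Finset ℂ) :
    ∑ z : N, ∑ b ∈ s, (if f b = (z : ℂ) then g b else 0) ≤ ∑ b ∈ s, g b := by
  classical
  rw [sum_comm]
  apply sum_le_sum
  intro b _
  by_cases h : ∃ z : N, f b = (z : ℂ)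
  · obtain ⟨z, hz⟩ := h
    rw [sum_eq_single z]
    · rw [if_pos hz]
    · intro y _ hy
      rw [if_neg]
      intro h'
      exact hy (Subtype.ext (h'.symm.trans hz))
    · intro h'
      exact absurd (mem_univ z) h'
  · push Not at h
    rw [sum_eq_zero]
    · exact Nat.zero_le _
    · intro z _
      rw [if_neg (h z)]

end fiber

variable {V : Type*} [Fintype V] {G : SimpleGraph V}

/-- the graph of the edges that meet `I` -/
def star (G : SimpleGraph V) (I : Finset V) : SimpleGraph V where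
  Adj u v := G.Adj u v ∧ (u ∈ I ∨ v ∈ I)
  symm := ⟨fun _ _ h => ⟨h.1.symm, h.2.symm⟩⟩
  loopless := ⟨fun _ h => h.1.ne rfl⟩

omit [Fintype V] in
lemma star_le (G : SimpleGraph V) (I : Finset V) : star G I ≤ G := fun _ _ h => h.1

omit [Fintype V] in
lemma mem_star {I : Finset V} {e : Sym2 V} :
    e ∈ (star G I).edgeSet ↔ e ∈ G.edgeSet ∧ ∃ v ∈ e, v ∈ I := by
  induction e with
  | _ u v =>
    constructor
    · intro h
      have h' : G.Adj u v ∧ (u ∈ I ∨ v ∈ I) := h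
      refine ⟨h'.1, ?_⟩
      rcases h'.2 with h1 | h1
      · exact ⟨u, by simp, h1⟩
      · exact ⟨v, by simp, h1⟩
    · rintro ⟨h1, x, hx, hxI⟩
      refine (show G.Adj u v ∧ (u ∈ I ∨ v ∈ I) from ⟨h1, ?_⟩)
      rw [Sym2.mem_iff] at hx
      rcases hx with rfl | rfl
      · exact Or.inl hxI
      · exact Or.inr hxI

/-- the number of crossings between edges that meet `I` -/
noncomputable def cr (D : Drawing G) (I : Finset V) : ℕ :=
  (sub D (star G I) (star_le G I)).crossings.ncard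

omit [Fintype V] in
lemma star_fin (D : Drawing G) (hfin : D.crossings.Finite) (I : Finset V) :
    (sub D (star G I) (star_le G I)).crossings.Finite :=
  hfin.subset (sub_crossings D _ _)

omit [Fintype V] in
lemma cr_le (D : Drawing G) (hfin : D.crossings.Finite) (I : Finset V) :
    cr D I ≤ D.crossings.ncard :=
  Set.ncard_le_ncard (sub_crossings D _ _) hfin

omit [Fintype V] in
/-- An interior point of an arc is not the position of a vertex. -/
lemma interior_ne (D : Drawing G) {e : Sym2 V} (he : e ∈ G.edgeSet) {z : ℂ}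
    (hz : z ∈ D.arc e '' Set.Ioo (0 : ℝ) 1) (v : V) : D.pos v ≠ z := by
  obtain ⟨t, ht, rfl⟩ := hz
  exact fun h => D.arc_avoids e he t ht v h.symm

open Classical in
/-- **Division of a region.** -/
theorem split (D : Drawing G) (hfin : D.crossings.Finite) (I B : Finset V)
    (hcl : ∀ v ∈ I, ∀ u, G.Adj v u → u ∈ I ∨ u ∈ B) (wt : V → ℕ) (κ R : ℕ) (hR : 0 < R)
    (hR2 : 5 * ((I ∪ B).card + 16 * cr D I) ≤ R ^ 2) :
    ∃ S M₁ M₂ : Finset V, S.card ≤ 5 * R ∧ S ⊆ I ∪ B ∧ M₁ ⊆ (I ∪ B) \ S ∧ M₂ ⊆ (I ∪ B) \ S ∧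
      Disjoint M₁ M₂ ∧ (∀ v ∈ I ∪ B, v ∈ S ∨ v ∈ M₁ ∨ v ∈ M₂) ∧
      (∀ v ∈ M₁, v ∈ I → ∀ u, G.Adj v u → u ∈ M₁ ∨ u ∈ S) ∧
      (∀ v ∈ M₂, v ∈ I → ∀ u, G.Adj v u → u ∈ M₂ ∨ u ∈ S) ∧
      (∑ v ∈ M₁, wt v + κ * cr D (M₁ ∩ I)) + (∑ v ∈ M₂, wt v + κ * cr D (M₂ ∩ I)) ≤
        ∑ v ∈ I ∪ B, wt v + κ * cr D I ∧
      3 * (∑ v ∈ M₁, wt v + κ * cr D (M₁ ∩ I)) ≤ 2 * (∑ v ∈ I ∪ B, wt v + κ * cr D I) ∧
      3 * (∑ v ∈ M₂, wt v + κ * cr D (M₂ ∩ I)) ≤ 2 * (∑ v ∈ I ∪ B, wt v + κ * cr D I) := by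
  obtain ⟨H, hH⟩ : ∃ H, H = star G I := ⟨_, rfl⟩
  have hHG : H ≤ G := by rw [hH]; exact star_le G I
  obtain ⟨E, hE⟩ : ∃ E : Drawing H, E = sub D H hHG := ⟨_, rfl⟩
  have hEpos : E.pos = D.pos := by rw [hE]; rfl
  have hEarc : E.arc = D.arc := by rw [hE]; rfl
  have hEfin : E.crossings.Finite := by
    rw [hE]; exact hfin.subset (sub_crossings D _ _)
  have hEcr : E.crossings.ncard = cr D I := by
    subst hH; subst hE; rfl
  have hmemH : ∀ e, e ∈ H.edgeSet ↔ e ∈ G.edgeSet ∧ ∃ v ∈ e, v ∈ I := by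
    intro e; rw [hH]; exact mem_star
  -- end-vertices
  have hends : ∀ e ∈ H.edgeSet, ∀ v ∈ e, v ∈ I ∪ B := by
    intro e he v hv
    obtain ⟨he1, x, hx, hxI⟩ := (hmemH e).1 he
    by_cases hvx : v = x
    · rw [hvx]; exact mem_union_left _ hxI
    · have h1 : G.Adj x v := by
        have h2 : e = s(x, v) := by
          induction e with
          | _ a b =>
            rw [Sym2.mem_iff] at hx hv
            rcases hx with rfl | rfl <;> rcases hv with rfl | rfl
            · exact absurd rfl hvx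
            · rfl
            · exact Sym2.eq_swap
            · exact absurd rfl hvx
        rw [h2] at he1
        exact he1
      rcases hcl x hxI v h1 with h | h
      · exact mem_union_left _ h
      · exact mem_union_right _ h
  let N : Finset ℂ := (I ∪ B).image D.pos ∪ hEfin.toFinset.image Prod.snd
  have hN : ∀ z, z ∈ N ↔ (∃ v ∈ I ∪ B, D.pos v = z) ∨ ∃ x ∈ E.crossings, x.2 = z := by
    intro z
    simp only [N, mem_union, mem_image, Set.Finite.mem_toFinset]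
  have hpos : ∀ v ∈ I ∪ B, D.pos v ∈ N := fun v hv => (hN _).mpr (Or.inl ⟨v, hv, rfl⟩)
  have hcr : ∀ x ∈ E.crossings, x.2 ∈ N := fun x hx => (hN _).mpr (Or.inr ⟨x, hx, rfl⟩)
  -- crossings are not vertices
  have hcrne : ∀ x ∈ E.crossings, ∀ v, D.pos v ≠ x.2 := by
    rintro x ⟨e, he, f, hf, hef, h1, h2, h3⟩ v
    rw [← hEpos]
    exact interior_ne E he h2 v
  -- costs
  obtain ⟨c, hc⟩ : ∃ c : ℂ → ℕ, ∀ z, c z =
    if ∃ v ∈ I ∪ B, D.pos v = z then 1 else 2 * (thr E z).card := ⟨_, fun _ => rfl⟩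
  have hcost : 5 * ∑ z : N, c z ^ 2 ≤ R ^ 2 := by
    refine le_trans (Nat.mul_le_mul_left 5 ?_) hR2
    rw [sum_coe_sort N (fun z => c z ^ 2),
      ← sum_filter_add_sum_filter_not N (fun z => ∃ v ∈ I ∪ B, D.pos v = z)]
    apply Nat.add_le_add
    · calc ∑ z ∈ N with (∃ v ∈ I ∪ B, D.pos v = z), c z ^ 2
          = ∑ z ∈ N with (∃ v ∈ I ∪ B, D.pos v = z), 1 := by
            apply sum_congr rfl
            intro z hz
            rw [mem_filter] at hz
            rw [hc, if_pos hz.2, one_pow]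
        _ = (N.filter (fun z => ∃ v ∈ I ∪ B, D.pos v = z)).card := by
            rw [sum_const, smul_eq_mul, mul_one]
        _ ≤ ((I ∪ B).image D.pos).card := by
            apply card_le_card
            intro z hz
            rw [mem_filter] at hz
            obtain ⟨v, hv, hz⟩ := hz.2
            exact mem_image.2 ⟨v, hv, hz⟩
        _ ≤ _ := card_image_le
    · calc ∑ z ∈ N with ¬ (∃ v ∈ I ∪ B, D.pos v = z), c z ^ 2
          ≤ ∑ z ∈ N with ¬ (∃ v ∈ I ∪ B, D.pos v = z),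
              16 * (hEfin.toFinset.filter (fun x => x.2 = z)).card := by
            apply sum_le_sum
            intro z hz
            rw [mem_filter] at hz
            have h1 := ((hN z).mp hz.1).resolve_left hz.2
            have h2 : ∀ v, E.pos v ≠ z := by
              obtain ⟨x, hx, rfl⟩ := h1
              rw [hEpos]
              exact hcrne x hx
            have h3 := thr_cross_card E hEfin z h2 h1
            rw [hc, if_neg hz.2, mul_pow]
            have h4 : (thr E z).card ^ 2 ≤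
              4 * (hEfin.toFinset.filter (fun x => x.2 = z)).card := by
                convert h3
            omega
        _ = 16 * ∑ z ∈ N with ¬ (∃ v ∈ I ∪ B, D.pos v = z),
              (hEfin.toFinset.filter (fun x => x.2 = z)).card := by rw [mul_sum]
        _ ≤ 16 * hEfin.toFinset.card := by
            apply Nat.mul_le_mul_left
            exact sum_fiber_le hEfin.toFinset _ Prod.snd
        _ = 16 * cr D I := by rw [← hEcr, Set.ncard_eq_toFinset_card _ hEfin]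
  -- weights
  obtain ⟨w, hw⟩ : ∃ w : N → ℕ, ∀ z, w z =
    (∑ v ∈ I ∪ B, (if D.pos v = (z : ℂ) then wt v else 0)) +
      κ * ∑ x ∈ hEfin.toFinset, (if x.2 = (z : ℂ) then 1 else 0) := ⟨_, fun _ => rfl⟩
  have hwtot : ∑ z : N, w z ≤ ∑ v ∈ I ∪ B, wt v + κ * cr D I := by
    simp only [hw]
    rw [sum_add_distrib, ← mul_sum]
    apply Nat.add_le_add (fiber_total _ _ _ N)
    apply Nat.mul_le_mul_left
    refine (fiber_total hEfin.toFinset (fun x => x.2) (fun _ => 1) N).trans ?_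
    rw [sum_const, smul_eq_mul, mul_one, ← hEcr, Set.ncard_eq_toFinset_card _ hEfin]
  obtain ⟨S', hS'c, hS'⟩ := separator (planar E N) (noK5 E N hcr) (fun z => c (z : ℂ)) w R hR hcost
  obtain ⟨T₁, T₂, hT1, hT2, hT12, hTcov, hTadj, hTw1, hTw2⟩ := grouping (planar E N) w S' hS'
  -- vertices removed
  obtain ⟨β, hβ⟩ : ∃ β : ℂ → Finset V, ∀ z, β z =
    if ∃ v ∈ I ∪ B, D.pos v = z then (I ∪ B).filter (fun v => D.pos v = z) else
      (thr E z).biUnion (fun e => univ.filter (fun v => v ∈ e)) := ⟨_, fun _ => rfl⟩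
  have hβc : ∀ z, (β z).card ≤ c z := by
    intro z
    rw [hβ, hc]
    split_ifs with h
    · rw [card_le_one]
      intro a ha b hb
      rw [mem_filter] at ha hb
      exact D.pos_injective (ha.2.trans hb.2.symm)
    · rw [mul_comm]
      apply card_biUnion_le_card_mul
      intro e _
      induction e with
      | _ a b =>
        calc (univ.filter (fun v => v ∈ s(a, b))).card ≤ ({a, b} : Finset V).card := by
              apply card_le_card
              intro v hv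
              rw [mem_filter, Sym2.mem_iff] at hv
              rw [mem_insert, mem_singleton]
              exact hv.2
          _ ≤ 2 := card_le_two
  have hβs : ∀ z : N, β z ⊆ I ∪ B := by
    intro z v hv
    rw [hβ] at hv
    split_ifs at hv with h
    · exact (mem_filter.1 hv).1
    · rw [mem_biUnion] at hv
      obtain ⟨e, he, hv⟩ := hv
      exact hends e (mem_thr.1 he).1 v (mem_filter.1 hv).2
  obtain ⟨S, hS⟩ : ∃ S : Finset V, S = S'.biUnion (fun z => β (z : ℂ)) := ⟨_, rfl⟩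
  have hSpos : ∀ v (hv : v ∈ I ∪ B), v ∉ S → (⟨D.pos v, hpos v hv⟩ : N) ∉ S' := by
    intro v hv hvS h
    apply hvS
    rw [hS, mem_biUnion]
    refine ⟨_, h, ?_⟩
    rw [hβ, if_pos ⟨v, hv, rfl⟩, mem_filter]
    exact ⟨hv, rfl⟩
  have hScr : ∀ e ∈ H.edgeSet, ∀ v ∈ e, v ∉ S → ∀ z : N, (z : ℂ) ∈ D.arc e '' Set.Ioo (0 : ℝ) 1 →
      z ∉ S' := by
    intro e he v hv hvS z hz h
    apply hvS
    rw [hS, mem_biUnion]
    refine ⟨z, h, ?_⟩
    rw [hβ, if_neg, mem_biUnion]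
    · refine ⟨e, mem_thr.2 ⟨he, ?_⟩, by rw [mem_filter]; exact ⟨mem_univ _, hv⟩⟩
      obtain ⟨t, ht, htz⟩ := hz
      rw [hEarc]
      exact ⟨t, Set.Ioo_subset_Icc_self ht, htz⟩
    · rintro ⟨u, -, hu⟩
      exact interior_ne D (SimpleGraph.edgeSet_mono hHG he) hz u hu
  -- the sides are closed
  have hT1cl : ∀ x ∈ T₁, ∀ y, (planar E N).Adj x y → y ∈ T₁ ∨ y ∈ S' := by
    intro x hx y hxy
    rcases hTcov y with h | h | h
    · exact Or.inr h
    · exact Or.inl h
    · exact absurd hxy (hTadj x hx y h)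
  have hT2cl : ∀ x ∈ T₂, ∀ y, (planar E N).Adj x y → y ∈ T₂ ∨ y ∈ S' := by
    intro x hx y hxy
    rcases hTcov y with h | h | h
    · exact Or.inr h
    · exact absurd hxy.symm (hTadj y h x hx)
    · exact Or.inl h
  -- parts of edges stay on their side
  have hpart : ∀ T : Finset N, (∀ x ∈ T, ∀ y, (planar E N).Adj x y → y ∈ T ∨ y ∈ S') →
      ∀ e ∈ H.edgeSet, ∀ J : Set ℝ, J.OrdConnected → J ⊆ Set.Icc 0 1 →
      (∀ z : N, (∃ t ∈ J, D.arc e t = z) → z ∉ S') →
      (∃ z ∈ T, ∃ t ∈ J, D.arc e t = (z : ℂ)) → ∀ z : N, (∃ t ∈ J, D.arc e t = z) → z ∈ T := by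
    rintro T hT e he J hJ hJ1 hJS ⟨z₀, hz₀, hz₀J⟩ z hz
    have hconn := part_nodes_conn E N e he J hJ hJ1
      (univ.filter (fun z : N => ∃ t ∈ J, E.arc e t = z)) ⟨z₀, by
        rw [mem_filter, hEarc]; exact ⟨mem_univ _, hz₀J⟩⟩ (by simp)
    refine hconn.induct (· ∈ T) (x₀ := z₀) (by
      rw [mem_filter, hEarc]; exact ⟨mem_univ _, hz₀J⟩) hz₀ ?_ z (by
      rw [mem_filter, hEarc]; exact ⟨mem_univ _, hz⟩)
    intro x hx y hy hxy hxT
    rcases hT x hxT y hxy with h | h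
    · exact h
    · rw [mem_filter, hEarc] at hy
      exact absurd h (hJS y hy.2)
  -- consequences for a side
  have hside : ∀ T : Finset N, Disjoint T S' →
      (∀ x ∈ T, ∀ y, (planar E N).Adj x y → y ∈ T ∨ y ∈ S') →
      ∀ v ∈ I ∪ B, v ∉ S → (∃ z ∈ T, D.pos v = (z : ℂ)) → ∀ e ∈ H.edgeSet, v ∈ e →
      (∀ u ∈ e, u ∉ S → ∃ z ∈ T, D.pos u = (z : ℂ)) ∧
      (∀ z : N, (z : ℂ) ∈ D.arc e '' Set.Ioo (0 : ℝ) 1 → z ∈ T) := by
    rintro T hTS hT v hv hvS ⟨z₀, hz₀, hvz₀⟩ e he hve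
    have heG := SimpleGraph.edgeSet_mono hHG he
    obtain ⟨u, rfl⟩ := hve
    have huB := hends _ he u (Sym2.mem_mk_right v u)
    have hvz : z₀ = ⟨D.pos v, hpos v hv⟩ := Subtype.ext hvz₀.symm
    constructor
    · intro x hx hxS
      rw [Sym2.mem_iff] at hx
      rcases hx with rfl | rfl
      · exact ⟨z₀, hz₀, hvz₀⟩
      obtain ⟨tx, htx, htx'⟩ := pos_mem D _ heG x (Sym2.mem_mk_right v x)
      obtain ⟨tv, htv, htv'⟩ := pos_mem D _ heG v (Sym2.mem_mk_left v x)
      refine ⟨⟨D.pos x, hpos x huB⟩, ?_, rfl⟩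
      refine hpart T hT _ he (Set.Icc 0 1) Set.ordConnected_Icc (le_refl _) ?_
        ⟨z₀, hz₀, tv, htv, by rw [htv', hvz₀]⟩ _ ⟨tx, htx, htx'⟩
      rintro z ⟨t, ht, htz⟩
      by_cases h0 : t = 0 ∨ t = 1
      · obtain ⟨y, hy, hyt⟩ := end_pos D _ heG t h0
        have hyS : y ∉ S := by
          rw [Sym2.mem_iff] at hy
          rcases hy with rfl | rfl
          · exact hvS
          · exact hxS
        have hyB := hends _ he y hy
        have h1 := hSpos y hyB hyS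
        have h2 : z = ⟨D.pos y, hpos y hyB⟩ := Subtype.ext (by rw [← htz, hyt])
        rw [h2]; exact h1
      · push Not at h0
        exact hScr _ he v (Sym2.mem_mk_left v x) hvS z ⟨t, ⟨lt_of_le_of_ne ht.1 (Ne.symm h0.1),
          lt_of_le_of_ne ht.2 h0.2⟩, htz⟩
    · rintro z ⟨r, hr, hrz⟩
      have hSv := hSpos v hv hvS
      rcases D.arc_ends v u heG with ⟨h0, h1⟩ | ⟨h0, h1⟩
      · refine hpart T hT _ he (Set.Ico 0 1) Set.ordConnected_Ico Set.Ico_subset_Icc_self ?_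
          ⟨z₀, hz₀, 0, by simp, by rw [h0, hvz₀]⟩ z ⟨r, ⟨hr.1.le, hr.2⟩, hrz⟩
        rintro y ⟨t, ht, hty⟩
        rcases eq_or_lt_of_le ht.1 with h2 | h2
        · have h3 : y = ⟨D.pos v, hpos v hv⟩ := Subtype.ext (by rw [← hty, ← h2, h0])
          rw [h3]; exact hSv
        · exact hScr _ he v (Sym2.mem_mk_left v u) hvS y ⟨t, ⟨h2, ht.2⟩, hty⟩
      · refine hpart T hT _ he (Set.Ioc 0 1) Set.ordConnected_Ioc Set.Ioc_subset_Icc_self ?_
          ⟨z₀, hz₀, 1, by simp, by rw [h1, hvz₀]⟩ z ⟨r, ⟨hr.1, hr.2.le⟩, hrz⟩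
        rintro y ⟨t, ht, hty⟩
        rcases eq_or_lt_of_le ht.2 with h2 | h2
        · have h3 : y = ⟨D.pos v, hpos v hv⟩ := Subtype.ext (by rw [← hty, h2, h1])
          rw [h3]; exact hSv
        · exact hScr _ he v (Sym2.mem_mk_left v u) hvS y ⟨t, ⟨ht.1, h2⟩, hty⟩
  -- the two sides
  obtain ⟨M, hM⟩ : ∃ M : Finset N → Finset V, ∀ T v, v ∈ M T ↔
      v ∈ I ∪ B ∧ v ∉ S ∧ ∃ z ∈ T, D.pos v = (z : ℂ) :=
    ⟨fun T => (I ∪ B).filter (fun v => v ∉ S ∧ ∃ z ∈ T, D.pos v = (z : ℂ)), fun T v => by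
      simp only [mem_filter]⟩
  have hsub : ∀ T, M T ⊆ (I ∪ B) \ S := by
    intro T v hv
    rw [hM] at hv
    exact mem_sdiff.2 ⟨hv.1, hv.2.1⟩
  have hMcl : ∀ T : Finset N, Disjoint T S' →
      (∀ x ∈ T, ∀ y, (planar E N).Adj x y → y ∈ T ∨ y ∈ S') →
      ∀ v ∈ M T, v ∈ I → ∀ u, G.Adj v u → u ∈ M T ∨ u ∈ S := by
    intro T hTS hT v hv hvI u hvu
    rw [hM] at hv
    have he : s(v, u) ∈ H.edgeSet := (hmemH _).2 ⟨hvu, v, Sym2.mem_mk_left v u, hvI⟩
    by_cases huS : u ∈ S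
    · exact Or.inr huS
    · left
      rw [hM]
      exact ⟨hends _ he u (Sym2.mem_mk_right v u), huS,
        (hside T hTS hT v hv.1 hv.2.1 hv.2.2 _ he (Sym2.mem_mk_left v u)).1 u
          (Sym2.mem_mk_right v u) huS⟩
  have hMw : ∀ T : Finset N, Disjoint T S' →
      (∀ x ∈ T, ∀ y, (planar E N).Adj x y → y ∈ T ∨ y ∈ S') →
      ∑ v ∈ M T, wt v + κ * cr D (M T ∩ I) ≤ ∑ z ∈ T, w z := by
    intro T hTS hT
    simp only [hw]
    rw [sum_add_distrib, ← mul_sum]
    apply Nat.add_le_add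
    · apply fiber_le
      · intro v hv
        exact ((hM T v).1 hv).1
      · intro v hv
        exact ((hM T v).1 hv).2.2
    · apply Nat.mul_le_mul_left
      obtain ⟨X, hX⟩ : ∃ X, X = hEfin.toFinset.filter (fun x => ∃ z ∈ T, x.2 = (z : ℂ)) :=
        ⟨_, rfl⟩
      have h1 : cr D (M T ∩ I) ≤ X.card := by
        unfold cr
        rw [← Set.ncard_coe_finset]
        apply Set.ncard_le_ncard _ (Finset.finite_toSet X)
        rintro x ⟨e, he, f, hf, hef, hx1, hx2, hx3⟩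
        obtain ⟨he1, v, hve, hv⟩ := mem_star.1 he
        obtain ⟨hf1, v', hvf, hv'⟩ := mem_star.1 hf
        rw [mem_inter] at hv hv'
        have heH : e ∈ H.edgeSet := (hmemH e).2 ⟨he1, v, hve, hv.2⟩
        have hfH : f ∈ H.edgeSet := (hmemH f).2 ⟨hf1, v', hvf, hv'.2⟩
        have hxE : x ∈ E.crossings := by
          rw [hE]
          exact ⟨e, heH, f, hfH, hef, hx1, hx2, hx3⟩
        rw [hX, Finset.mem_coe, mem_filter, Set.Finite.mem_toFinset]
        refine ⟨hxE, ⟨x.2, hcr x hxE⟩, ?_, rfl⟩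
        have h2 := (hM T v).1 hv.1
        exact (hside T hTS hT v h2.1 h2.2.1 h2.2.2 e heH hve).2 ⟨x.2, hcr x hxE⟩ hx2
      refine h1.trans ?_
      have h2 := fiber_le hEfin.toFinset X (fun x => x.2) (fun _ => 1) N T (by
        rw [hX]; exact filter_subset _ _) (by
        intro x hx
        rw [hX, mem_filter] at hx
        exact hx.2)
      rw [sum_const, smul_eq_mul, mul_one] at h2
      exact h2
  have hMw1 := hMw T₁ hT1 hT1cl
  have hMw2 := hMw T₂ hT2 hT2cl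
  have hT12w : ∑ z ∈ T₁, w z + ∑ z ∈ T₂, w z ≤ ∑ z, w z := by
    rw [← sum_union hT12]
    exact sum_le_sum_of_subset (subset_univ _)
  refine ⟨S, M T₁, M T₂, ?_, ?_, hsub _, hsub _, ?_, ?_, hMcl T₁ hT1 hT1cl, hMcl T₂ hT2 hT2cl,
    ?_, ?_, ?_⟩
  · rw [hS]
    refine card_biUnion_le.trans (le_trans (sum_le_sum fun z _ => hβc z) hS'c)
  · rw [hS]
    intro v hv
    rw [mem_biUnion] at hv
    obtain ⟨z, -, hv⟩ := hv
    exact hβs z hv
  · rw [disjoint_left]
    intro v h1 h2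
    obtain ⟨-, -, z, hz, hvz⟩ := (hM _ _).1 h1
    obtain ⟨-, -, z', hz', hvz'⟩ := (hM _ _).1 h2
    have : z = z' := Subtype.ext (hvz.symm.trans hvz')
    rw [← this] at hz'
    exact disjoint_left.1 hT12 hz hz'
  · intro v hv
    by_cases hvS : v ∈ S
    · exact Or.inl hvS
    · have h1 := hSpos v hv hvS
      rcases hTcov ⟨D.pos v, hpos v hv⟩ with h | h | h
      · exact absurd h h1
      · exact Or.inr (Or.inl ((hM _ _).2 ⟨hv, hvS, _, h, rfl⟩))
      · exact Or.inr (Or.inr ((hM _ _).2 ⟨hv, hvS, _, h, rfl⟩))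
  · omega
  · omega
  · omega

end Pool.Agent.U514.PD
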