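import Mathlib
import Pool.Agent.U514.PD.Split

/-!
# The treewidth of a drawn graph

A graph with `s` vertices, drawn in the plane with `k` crossings, has an elimination order, and a
tree decomposition, with bags of size `O (√(s + k))`.
-/

set_option autoImplicit false

namespace Pool.Agent.U514.PD

open Finset Pool.Agent.Helper770.Crossing

variable {V : Type*} [Fintype V] {G : SimpleGraph V}

/-- An elimination order of the inner vertices of the region `(I, B)`. -/
structure Elim (G : SimpleGraph V) (I B : Finset V) (K : ℕ) (rk : V → ℕ) (bag : V → Finset V) :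
    Prop where
  inj : ∀ z ∈ I, ∀ y ∈ I, rk z = rk y → z = y
  lt : ∀ z ∈ I, rk z < I.card
  self : ∀ z ∈ I, z ∈ bag z
  sub : ∀ z ∈ I, ∀ x ∈ bag z, x ∈ B ∨ (x ∈ I ∧ rk x ≤ rk z)
  chord : ∀ z ∈ I, ∀ y ∈ bag z, y ∈ I → ∀ x ∈ bag z, (x ∈ B ∨ rk x ≤ rk y) → x ∈ bag y
  adjB : ∀ z ∈ I, ∀ y ∈ B, G.Adj z y → y ∈ bag z
  adjI : ∀ z ∈ I, ∀ y ∈ I, G.Adj z y → y ∈ bag z ∨ z ∈ bag y
  card : ∀ z ∈ I, (bag z).card ≤ K

open Classical in
/-- Composition of elimination orders. -/
theorem Elim.glue {I B S I₁ B₁ I₂ B₂ : Finset V} {K : ℕ} (hIB : Disjoint I B)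
    (hS : S ⊆ I ∪ B) (hI : ∀ v ∈ I, v ∈ S ∨ v ∈ I₁ ∨ v ∈ I₂) (hI1 : I₁ ⊆ I \ S) (hI2 : I₂ ⊆ I \ S)
    (hdis : Disjoint I₁ I₂) (hB1 : B₁ ⊆ B ∪ S) (hB2 : B₂ ⊆ B ∪ S)
    (hcl1 : ∀ v ∈ I₁, ∀ u, G.Adj v u → u ∈ I₁ ∨ u ∈ B₁)
    (hcl2 : ∀ v ∈ I₂, ∀ u, G.Adj v u → u ∈ I₂ ∨ u ∈ B₂) (hK : B.card + S.card ≤ K)
    {r₁ r₂ : V → ℕ} {b₁ b₂ : V → Finset V} (h1 : Elim G I₁ B₁ K r₁ b₁)
    (h2 : Elim G I₂ B₂ K r₂ b₂) : ∃ rk bag, Elim G I B K rk bag := by
  -- the vertices that come first
  obtain ⟨I₀, hI0⟩ : ∃ I₀, I₀ = I ∩ S := ⟨_, rfl⟩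
  have hm0 : ∀ v, v ∈ I₀ ↔ v ∈ I ∧ v ∈ S := fun v => by rw [hI0, mem_inter]
  have hm1 : ∀ v ∈ I₁, v ∈ I ∧ v ∉ S := fun v hv => mem_sdiff.1 (hI1 hv)
  have hm2 : ∀ v ∈ I₂, v ∈ I ∧ v ∉ S := fun v hv => mem_sdiff.1 (hI2 hv)
  have h12 : ∀ v ∈ I₁, v ∉ I₂ := fun v hv hv' => disjoint_left.1 hdis hv hv'
  have hnB : ∀ v ∈ I, v ∉ B := fun v hv hv' => disjoint_left.1 hIB hv hv'
  have hcard : I.card = I₀.card + I₁.card + I₂.card := by
    rw [← card_union_of_disjoint, ← card_union_of_disjoint]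
    · congr 1
      ext v
      rw [mem_union, mem_union, hm0]
      constructor
      · intro hv
        rcases hI v hv with h | h | h
        · exact Or.inl (Or.inl ⟨hv, h⟩)
        · exact Or.inl (Or.inr h)
        · exact Or.inr h
      · rintro ((h | h) | h)
        · exact h.1
        · exact (hm1 v h).1
        · exact (hm2 v h).1
    · rw [disjoint_left]
      intro v hv hv'
      rcases mem_union.1 hv with h | h
      · exact (hm2 v hv').2 ((hm0 v).1 h).2
      · exact h12 v h hv'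
    · rw [disjoint_left]
      intro v hv hv'
      exact (hm1 v hv').2 ((hm0 v).1 hv).2
  -- the enumeration of the first vertices
  obtain ⟨r₀, hr0lt, hr0inj⟩ : ∃ r₀ : V → ℕ, (∀ v ∈ I₀, r₀ v < I₀.card) ∧
      ∀ v ∈ I₀, ∀ u ∈ I₀, r₀ v = r₀ u → v = u := by
    refine ⟨fun v => if h : v ∈ I₀ then (I₀.equivFin ⟨v, h⟩ : ℕ) else 0, ?_, ?_⟩
    · intro v hv
      simp only [hv, dif_pos]
      exact (I₀.equivFin ⟨v, hv⟩).2
    · intro v hv u hu h
      simp only [hv, hu, dif_pos] at h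
      have h3 := I₀.equivFin.injective (Fin.ext h)
      exact congrArg Subtype.val h3
  obtain ⟨rk, hrk⟩ : ∃ rk : V → ℕ, ∀ v, rk v = if v ∈ S then r₀ v else
    if v ∈ I₁ then I₀.card + r₁ v else I₀.card + I₁.card + r₂ v := ⟨_, fun _ => rfl⟩
  have rk0 : ∀ v ∈ I₀, rk v = r₀ v := fun v hv => by rw [hrk, if_pos ((hm0 v).1 hv).2]
  have rk1 : ∀ v ∈ I₁, rk v = I₀.card + r₁ v := fun v hv => by
    rw [hrk, if_neg (hm1 v hv).2, if_pos hv]
  have rk2 : ∀ v ∈ I₂, rk v = I₀.card + I₁.card + r₂ v := fun v hv => by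
    rw [hrk, if_neg (hm2 v hv).2, if_neg (fun h => h12 v h hv)]
  obtain ⟨bag, hbag⟩ : ∃ bag : V → Finset V, ∀ v, bag v = if v ∈ S then
    B ∪ I₀.filter (fun x => r₀ x ≤ r₀ v) else if v ∈ I₁ then b₁ v else b₂ v := ⟨_, fun _ => rfl⟩
  have bag0 : ∀ v ∈ I₀, ∀ x, x ∈ bag v ↔ x ∈ B ∨ (x ∈ I₀ ∧ r₀ x ≤ r₀ v) := fun v hv x => by
    rw [hbag, if_pos ((hm0 v).1 hv).2, mem_union, mem_filter]
  have bag1 : ∀ v ∈ I₁, bag v = b₁ v := fun v hv => by
    rw [hbag, if_neg (hm1 v hv).2, if_pos hv]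
  have bag2 : ∀ v ∈ I₂, bag v = b₂ v := fun v hv => by
    rw [hbag, if_neg (hm2 v hv).2, if_neg (fun h => h12 v h hv)]
  have cases3 : ∀ v ∈ I, v ∈ I₀ ∨ v ∈ I₁ ∨ v ∈ I₂ := by
    intro v hv
    rcases hI v hv with h | h | h
    · exact Or.inl ((hm0 v).2 ⟨hv, h⟩)
    · exact Or.inr (Or.inl h)
    · exact Or.inr (Or.inr h)
  have inB : ∀ {B' : Finset V}, B' ⊆ B ∪ S → ∀ v ∈ B', v ∈ B ∨ v ∈ I₀ := by
    intro B' hB' v hv
    rcases mem_union.1 (hB' hv) with h | h
    · exact Or.inl h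
    · rcases mem_union.1 (hS h) with h3 | h3
      · exact Or.inr ((hm0 v).2 ⟨h3, h⟩)
      · exact Or.inl h3
  refine ⟨rk, bag, ?_, ?_, ?_, ?_, ?_, ?_, ?_, ?_⟩
  · -- injective
    intro z hz y hy hzy
    rcases cases3 z hz with hz | hz | hz <;> rcases cases3 y hy with hy | hy | hy
    · rw [rk0 z hz, rk0 y hy] at hzy
      exact hr0inj z hz y hy hzy
    · rw [rk0 z hz, rk1 y hy] at hzy
      have := hr0lt z hz
      omega
    · rw [rk0 z hz, rk2 y hy] at hzy
      have := hr0lt z hz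
      omega
    · rw [rk1 z hz, rk0 y hy] at hzy
      have := hr0lt y hy
      omega
    · rw [rk1 z hz, rk1 y hy] at hzy
      exact h1.inj z hz y hy (by omega)
    · rw [rk1 z hz, rk2 y hy] at hzy
      have := h1.lt z hz
      omega
    · rw [rk2 z hz, rk0 y hy] at hzy
      have := hr0lt y hy
      omega
    · rw [rk2 z hz, rk1 y hy] at hzy
      have := h1.lt y hy
      omega
    · rw [rk2 z hz, rk2 y hy] at hzy
      exact h2.inj z hz y hy (by omega)
  · intro z hz
    rcases cases3 z hz with hz | hz | hz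
    · rw [rk0 z hz]
      have := hr0lt z hz
      omega
    · rw [rk1 z hz]
      have := h1.lt z hz
      omega
    · rw [rk2 z hz]
      have := h2.lt z hz
      omega
  · intro z hz
    rcases cases3 z hz with hz | hz | hz
    · rw [bag0 z hz]
      exact Or.inr ⟨hz, le_refl _⟩
    · rw [bag1 z hz]
      exact h1.self z hz
    · rw [bag2 z hz]
      exact h2.self z hz
  · intro z hz x hx
    rcases cases3 z hz with hz | hz | hz
    · rw [bag0 z hz] at hx
      rcases hx with hx | hx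
      · exact Or.inl hx
      · refine Or.inr ⟨((hm0 x).1 hx.1).1, ?_⟩
        rw [rk0 z hz, rk0 x hx.1]
        exact hx.2
    · rw [bag1 z hz] at hx
      rcases h1.sub z hz x hx with hx | hx
      · rcases inB hB1 x hx with h | h
        · exact Or.inl h
        · refine Or.inr ⟨((hm0 x).1 h).1, ?_⟩
          rw [rk0 x h, rk1 z hz]
          have := hr0lt x h
          omega
      · refine Or.inr ⟨(hm1 x hx.1).1, ?_⟩
        rw [rk1 x hx.1, rk1 z hz]
        omega
    · rw [bag2 z hz] at hx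
      rcases h2.sub z hz x hx with hx | hx
      · rcases inB hB2 x hx with h | h
        · exact Or.inl h
        · refine Or.inr ⟨((hm0 x).1 h).1, ?_⟩
          rw [rk0 x h, rk2 z hz]
          have := hr0lt x h
          omega
      · refine Or.inr ⟨(hm2 x hx.1).1, ?_⟩
        rw [rk2 x hx.1, rk2 z hz]
        omega
  · -- chordal
    intro z hz y hy hyI x hx hxy
    rcases cases3 z hz with hz | hz | hz
    · rw [bag0 z hz] at hy hx
      have hy0 : y ∈ I₀ := by
        rcases hy with h | h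
        · exact absurd h (hnB y hyI)
        · exact h.1
      rw [bag0 y hy0]
      rcases hx with hx | hx
      · exact Or.inl hx
      · rcases hxy with h | h
        · exact Or.inl h
        · rw [rk0 x hx.1, rk0 y hy0] at h
          exact Or.inr ⟨hx.1, h⟩
    · rw [bag1 z hz] at hy hx
      rcases h1.sub z hz y hy with hyB | hyI1
      · have hy0 : y ∈ I₀ := (inB hB1 y hyB).resolve_left (hnB y hyI)
        rw [bag0 y hy0]
        rcases hxy with h | h
        · exact Or.inl h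
        · rcases h1.sub z hz x hx with hxB | hxI1
          · rcases inB hB1 x hxB with h3 | h3
            · exact Or.inl h3
            · rw [rk0 x h3, rk0 y hy0] at h
              exact Or.inr ⟨h3, h⟩
          · rw [rk1 x hxI1.1, rk0 y hy0] at h
            have := hr0lt y hy0
            omega
      · rw [bag1 y hyI1.1]
        refine h1.chord z hz y hy hyI1.1 x hx ?_
        rcases h1.sub z hz x hx with hxB | hxI1
        · exact Or.inl hxB
        · right
          rcases hxy with h | h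
          · exact absurd h (hnB x (hm1 x hxI1.1).1)
          · rw [rk1 x hxI1.1, rk1 y hyI1.1] at h
            omega
    · rw [bag2 z hz] at hy hx
      rcases h2.sub z hz y hy with hyB | hyI1
      · have hy0 : y ∈ I₀ := (inB hB2 y hyB).resolve_left (hnB y hyI)
        rw [bag0 y hy0]
        rcases hxy with h | h
        · exact Or.inl h
        · rcases h2.sub z hz x hx with hxB | hxI1
          · rcases inB hB2 x hxB with h3 | h3
            · exact Or.inl h3
            · rw [rk0 x h3, rk0 y hy0] at h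
              exact Or.inr ⟨h3, h⟩
          · rw [rk2 x hxI1.1, rk0 y hy0] at h
            have := hr0lt y hy0
            omega
      · rw [bag2 y hyI1.1]
        refine h2.chord z hz y hy hyI1.1 x hx ?_
        rcases h2.sub z hz x hx with hxB | hxI1
        · exact Or.inl hxB
        · right
          rcases hxy with h | h
          · exact absurd h (hnB x (hm2 x hxI1.1).1)
          · rw [rk2 x hxI1.1, rk2 y hyI1.1] at h
            omega
  · intro z hz y hy hzy
    rcases cases3 z hz with hz | hz | hz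
    · rw [bag0 z hz]
      exact Or.inl hy
    · rw [bag1 z hz]
      rcases hcl1 z hz y hzy with h | h
      · exact absurd hy (hnB y (hm1 y h).1)
      · exact h1.adjB z hz y h hzy
    · rw [bag2 z hz]
      rcases hcl2 z hz y hzy with h | h
      · exact absurd hy (hnB y (hm2 y h).1)
      · exact h2.adjB z hz y h hzy
  · intro z hz y hy hzy
    rcases cases3 z hz with hz | hz | hz
    · rcases cases3 y hy with hy | hy | hy
      · rw [bag0 z hz, bag0 y hy]
        rcases le_total (r₀ y) (r₀ z) with h | h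
        · exact Or.inl (Or.inr ⟨hy, h⟩)
        · exact Or.inr (Or.inr ⟨hz, h⟩)
      · right
        rw [bag1 y hy]
        rcases hcl1 y hy z hzy.symm with h | h
        · exact absurd ((hm0 z).1 hz).2 (hm1 z h).2
        · exact h1.adjB y hy z h hzy.symm
      · right
        rw [bag2 y hy]
        rcases hcl2 y hy z hzy.symm with h | h
        · exact absurd ((hm0 z).1 hz).2 (hm2 z h).2
        · exact h2.adjB y hy z h hzy.symm
    · rcases hcl1 z hz y hzy with h | h
      · rw [bag1 z hz, bag1 y h]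
        exact h1.adjI z hz y h hzy
      · rw [bag1 z hz]
        exact Or.inl (h1.adjB z hz y h hzy)
    · rcases hcl2 z hz y hzy with h | h
      · rw [bag2 z hz, bag2 y h]
        exact h2.adjI z hz y h hzy
      · rw [bag2 z hz]
        exact Or.inl (h2.adjB z hz y h hzy)
  · intro z hz
    rcases cases3 z hz with hz | hz | hz
    · rw [hbag, if_pos ((hm0 z).1 hz).2]
      refine (card_union_le _ _).trans (le_trans ?_ hK)
      apply Nat.add_le_add_left
      refine (card_filter_le _ _).trans (card_le_card ?_)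
      intro v hv
      exact ((hm0 v).1 hv).2
    · rw [bag1 z hz]
      exact h1.card z hz
    · rw [bag2 z hz]
      exact h2.card z hz

open Classical in
/-- **The elimination order of a region.** -/
theorem exists_elim (D : Drawing G) (hfin : D.crossings.Finite) (R : ℕ) (hR : 0 < R)
    (hR2 : 5 * (Fintype.card V + 16 * D.crossings.ncard) ≤ R ^ 2) :
    ∀ (n : ℕ) (I B : Finset V), I.card = n → Disjoint I B →
      (∀ v ∈ I, ∀ u, G.Adj v u → u ∈ I ∨ u ∈ B) → B.card ≤ 15 * R + 3 →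
      ∃ rk bag, Elim G I B (20 * R + 4) rk bag := by
  intro n
  induction n using Nat.strong_induction_on with
  | _ n ih =>
  intro I B hn hIB hcl hB
  rcases I.eq_empty_or_nonempty with h0 | ⟨a, ha⟩
  · subst h0
    exact ⟨fun _ => 0, fun _ => ∅, by constructor <;> simp⟩
  obtain ⟨S, M₁, M₂, hSc, hSs, hM1, hM2, hM12, hcov, hcl1, hcl2, hX12, hX1, hX2⟩ :=
    split D hfin I B hcl (fun v => if v ∈ B then 1 else 0) 0 R hR (by
      refine le_trans (Nat.mul_le_mul_left 5 ?_) hR2
      have h1 := cr_le D hfin I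
      have h2 := card_le_univ (I ∪ B)
      omega)
  have hnot : ∀ v ∈ B, v ∉ I := fun v hv hv' => disjoint_left.1 hIB hv' hv
  have hsum : ∀ M : Finset V, ∑ v ∈ M, (if v ∈ B then 1 else 0) = (M ∩ B).card := by
    intro M
    rw [← Finset.sum_filter, sum_const, smul_eq_mul, mul_one, filter_mem_eq_inter]
  simp only [zero_mul, add_zero, hsum] at hX1 hX2
  have hBB : ((I ∪ B) ∩ B) = B := by
    ext v
    rw [mem_inter, mem_union]
    tauto
  rw [hBB] at hX1 hX2
  obtain ⟨S', hS'⟩ : ∃ S', S' = insert a S := ⟨_, rfl⟩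
  have hS'c : S'.card ≤ 5 * R + 1 := by
    rw [hS']
    exact (card_insert_le _ _).trans (by omega)
  have haS : a ∈ S' := by rw [hS']; exact mem_insert_self _ _
  have hSS : S ⊆ S' := by rw [hS']; exact subset_insert _ _
  have hS's : S' ⊆ I ∪ B := by
    rw [hS']
    exact insert_subset (mem_union_left _ ha) hSs
  have key : ∀ M : Finset V, M ⊆ (I ∪ B) \ S → 3 * (M ∩ B).card ≤ 2 * B.card →
      (∀ v ∈ M, v ∈ I → ∀ u, G.Adj v u → u ∈ M ∨ u ∈ S) →
      (∀ v ∈ (M ∩ I) \ S', ∀ u, G.Adj v u → u ∈ (M ∩ I) \ S' ∨ u ∈ (M ∩ B) ∪ S') ∧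
      ∃ rk bag, Elim G ((M ∩ I) \ S') ((M ∩ B) ∪ S') (20 * R + 4) rk bag := by
    intro M hM hMB hMcl
    have hc : ∀ v ∈ (M ∩ I) \ S', ∀ u, G.Adj v u → u ∈ (M ∩ I) \ S' ∨ u ∈ (M ∩ B) ∪ S' := by
      intro v hv u hvu
      rw [mem_sdiff, mem_inter] at hv
      by_cases huS : u ∈ S'
      · exact Or.inr (mem_union_right _ huS)
      · rcases hMcl v hv.1.1 hv.1.2 u hvu with h | h
        · rcases mem_union.1 (mem_sdiff.1 (hM h)).1 with h3 | h3
          · exact Or.inl (mem_sdiff.2 ⟨mem_inter.2 ⟨h, h3⟩, huS⟩)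
          · exact Or.inr (mem_union_left _ (mem_inter.2 ⟨h, h3⟩))
        · exact absurd (hSS h) huS
    refine ⟨hc, ih ((M ∩ I) \ S').card ?_ _ _ rfl ?_ hc ?_⟩
    · rw [← hn]
      apply card_lt_card
      refine ⟨fun v hv => (mem_inter.1 (mem_sdiff.1 hv).1).2, fun h => ?_⟩
      exact (mem_sdiff.1 (h ha)).2 haS
    · rw [disjoint_left]
      intro v hv hv'
      rw [mem_sdiff, mem_inter] at hv
      rcases mem_union.1 hv' with h | h
      · exact hnot v (mem_inter.1 h).2 hv.1.2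
      · exact hv.2 h
    · refine (card_union_le _ _).trans ?_
      omega
  obtain ⟨hc1, r₁, b₁, he1⟩ := key M₁ hM1 hX1 hcl1
  obtain ⟨hc2, r₂, b₂, he2⟩ := key M₂ hM2 hX2 hcl2
  refine Elim.glue (S := S') hIB hS's ?_ ?_ ?_ ?_ ?_ ?_ hc1 hc2 (by omega) he1 he2
  · intro v hv
    by_cases hvS : v ∈ S'
    · exact Or.inl hvS
    · rcases hcov v (mem_union_left _ hv) with h | h | h
      · exact Or.inl (hSS h)
      · exact Or.inr (Or.inl (mem_sdiff.2 ⟨mem_inter.2 ⟨h, hv⟩, hvS⟩))
      · exact Or.inr (Or.inr (mem_sdiff.2 ⟨mem_inter.2 ⟨h, hv⟩, hvS⟩))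
  · intro v hv
    rw [mem_sdiff, mem_inter] at hv
    exact mem_sdiff.2 ⟨hv.1.2, hv.2⟩
  · intro v hv
    rw [mem_sdiff, mem_inter] at hv
    exact mem_sdiff.2 ⟨hv.1.2, hv.2⟩
  · rw [disjoint_left]
    intro v hv hv'
    exact disjoint_left.1 hM12 (mem_inter.1 (mem_sdiff.1 hv).1).1
      (mem_inter.1 (mem_sdiff.1 hv').1).1
  · intro v hv
    rcases mem_union.1 hv with h | h
    · exact mem_union_left _ (mem_inter.1 h).2
    · exact mem_union_right _ h
  · intro v hv
    rcases mem_union.1 hv with h | h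
    · exact mem_union_left _ (mem_inter.1 h).2
    · exact mem_union_right _ h

end Pool.Agent.U514.PD
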