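import Mathlib
import Pool.Agent.U514.PD.Split

/-!
# Division of a drawn graph into pieces with small boundary

A graph with `s` vertices, drawn in the plane with `k` crossings, is divided into
`O ((s + k) / q ^ 2 + a(V) / w + 1)` pieces with weight at most `w` and boundary `O(q)` (for planar
graphs and without weights: Frederickson's `r`-division).
-/

set_option autoImplicit false

namespace Pool.Agent.U514.PD

open Finset Pool.Agent.Helper770.Crossing Pool.Agent.Helper770.Sep Pool.Agent.Helper770.Planar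
  Pool.Agent.Helper770.EdgeSep

/-- the inequality for the numbers of pieces -/
lemma count_ineq {x u v : ℝ} (hx : 1 < x) (hu0 : 0 ≤ u) (hv0 : 0 ≤ v)
    (h1 : u + v ≤ x + 0.0068 * √x) (h2 : u ≤ 2 / 3 * x + 0.0034 * √x)
    (h3 : v ≤ 2 / 3 * x + 0.0034 * √x) :
    max 1 (10 * u - √u) + max 1 (10 * v - √v) ≤ max 1 (10 * x - √x) := by
  obtain ⟨y, hy⟩ : ∃ y, y = √x := ⟨_, rfl⟩
  obtain ⟨p, hp⟩ : ∃ p, p = √u := ⟨_, rfl⟩
  obtain ⟨r, hr⟩ : ∃ r, r = √v := ⟨_, rfl⟩
  rw [← hy] at h1 h2 h3 ⊢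
  rw [← hp, ← hr]
  have hy0 : 0 ≤ y := by rw [hy]; exact Real.sqrt_nonneg _
  have hp0 : 0 ≤ p := by rw [hp]; exact Real.sqrt_nonneg _
  have hr0 : 0 ≤ r := by rw [hr]; exact Real.sqrt_nonneg _
  have hy2 : y ^ 2 = x := by rw [hy]; exact Real.sq_sqrt (by linarith)
  have hp2 : p ^ 2 = u := by rw [hp]; exact Real.sq_sqrt hu0
  have hr2 : r ^ 2 = v := by rw [hr]; exact Real.sq_sqrt hv0
  have hy1 : 1 ≤ y := by
    by_contra h
    push Not at h
    nlinarith
  have hyx : y ≤ x := by rw [← hy2]; nlinarith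
  refine le_trans ?_ (le_max_right _ _)
  rcases le_total 1 (10 * u - p) with hu | hu <;> rcases le_total 1 (10 * v - r) with hv | hv
  · rw [max_eq_right hu, max_eq_right hv]
    by_cases h4 : u + v ≤ x - 0.1 * y
    · linarith
    · push Not at h4
      have hpb : p ≤ 0.8187 * y := by
        by_contra h
        push Not at h
        have : (0.8187 * y) ^ 2 < p ^ 2 := pow_lt_pow_left₀ h (by positivity) (by norm_num)
        nlinarith
      have hrb : r ≤ 0.8187 * y := by
        by_contra h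
        push Not at h
        have : (0.8187 * y) ^ 2 < r ^ 2 := pow_lt_pow_left₀ h (by positivity) (by norm_num)
        nlinarith
      have h5 : u + v ≤ 0.8187 * y * (p + r) := by
        rw [← hp2, ← hr2]
        nlinarith [mul_le_mul_of_nonneg_right hpb hp0, mul_le_mul_of_nonneg_right hrb hr0]
      have h6 : 0.9 * y ^ 2 ≤ u + v := by nlinarith
      have h7 : 1.09 * y ≤ p + r := by
        by_contra h
        push Not at h
        have h8 : 0.8187 * y * (p + r) ≤ 0.8187 * y * (1.09 * y) :=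
          mul_le_mul_of_nonneg_left h.le (by positivity)
        nlinarith
      linarith
  · rw [max_eq_right hu, max_eq_left hv]
    linarith
  · rw [max_eq_left hu, max_eq_right hv]
    linarith
  · rw [max_eq_left hu, max_eq_left hv]
    linarith

variable {V : Type*} [Fintype V] {G : SimpleGraph V}

open Classical in
/-- the potential of a region -/
noncomputable def pot (D : Drawing G) (a : V → ℕ) (q w : ℕ) (I B : Finset V) : ℕ :=
  ∑ v ∈ I, (5000 * w + 5000 * q ^ 2 * a v) + B.card * (w * q) + 16 * 5000 * w * cr D I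

omit [Fintype V] in
lemma pot_card (D : Drawing G) (a : V → ℕ) (q w : ℕ) (I B : Finset V) :
    pot D a q w I B = 5000 * w * (I.card + 16 * cr D I) + 5000 * q ^ 2 * ∑ v ∈ I, a v +
      B.card * (w * q) := by
  unfold pot
  rw [sum_add_distrib, sum_const, smul_eq_mul, ← mul_sum]
  ring

open Classical in
theorem division_aux (D : Drawing G) (hfin : D.crossings.Finite) (a : V → ℕ) (q w : ℕ)
    (hq : 5000 ≤ q) (hw : 0 < w) : ∀ (n : ℕ) (I B : Finset V), Disjoint I B →
    (∀ v ∈ I, ∀ u, G.Adj v u → u ∈ I ∨ u ∈ B) → pot D a q w I B = n →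
    ∃ L : List (Finset V × Finset V), (∀ p ∈ L,
      (∀ v ∈ p.1, ∀ u, G.Adj v u → u ∈ p.1 ∨ u ∈ p.2) ∧ p.1.card ≤ q ^ 2 ∧
      p.2.card ≤ 5000 * q ∧ ∑ v ∈ p.1, a v ≤ w) ∧
      (∀ v ∈ I ∪ B, ∃ p ∈ L, v ∈ p.1 ∨ v ∈ p.2) ∧
      (L.length : ℝ) ≤ max 1 (10 * ((n : ℝ) / ((5000 * q ^ 2 * w : ℕ) : ℝ)) -
        √((n : ℝ) / ((5000 * q ^ 2 * w : ℕ) : ℝ))) := by
  intro n
  induction n using Nat.strong_induction_on with
  | _ n ih =>
  intro I B hIB hcl hn
  obtain ⟨Λ, hΛ⟩ : ∃ Λ, Λ = 5000 * q ^ 2 * w := ⟨_, rfl⟩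
  have hq0 : 0 < q := by omega
  have hΛ0 : 0 < Λ := by rw [hΛ]; positivity
  rw [← hΛ] at ih ⊢
  have hpc := pot_card D a q w I B
  rw [hn] at hpc
  have e1 : 5000 * w * (I.card + 16 * cr D I) ≤ n := by
    rw [hpc]; exact le_trans (Nat.le_add_right _ _) (Nat.le_add_right _ _)
  have e2 : 5000 * q ^ 2 * ∑ v ∈ I, a v ≤ n := by
    rw [hpc]; exact le_trans (Nat.le_add_left _ _) (Nat.le_add_right _ _)
  have e3 : B.card * (w * q) ≤ n := by
    rw [hpc]; exact Nat.le_add_left _ _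
  by_cases hnΛ : n ≤ Λ
  · refine ⟨[(I, B)], ?_, ?_, ?_⟩
    · intro p hp
      rw [List.mem_singleton] at hp
      subst hp
      refine ⟨hcl, ?_, ?_, ?_⟩
      · have h1 : 5000 * w * I.card ≤ 5000 * w * q ^ 2 := by
          calc 5000 * w * I.card ≤ 5000 * w * (I.card + 16 * cr D I) :=
                Nat.mul_le_mul_left _ (Nat.le_add_right _ _)
            _ ≤ n := e1
            _ ≤ Λ := hnΛ
            _ = _ := by rw [hΛ]; ring
        exact Nat.le_of_mul_le_mul_left h1 (by positivity)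
      · have h1 : (w * q) * B.card ≤ (w * q) * (5000 * q) := by
          calc (w * q) * B.card = B.card * (w * q) := by ring
            _ ≤ n := e3
            _ ≤ Λ := hnΛ
            _ = _ := by rw [hΛ]; ring
        exact Nat.le_of_mul_le_mul_left h1 (by positivity)
      · have h1 : (5000 * q ^ 2) * ∑ v ∈ I, a v ≤ (5000 * q ^ 2) * w := by
          calc (5000 * q ^ 2) * ∑ v ∈ I, a v ≤ n := e2
            _ ≤ Λ := hnΛ
            _ = _ := hΛ
        exact Nat.le_of_mul_le_mul_left h1 (by positivity)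
    · intro v hv
      exact ⟨(I, B), List.mem_singleton.2 rfl, mem_union.1 hv⟩
    · simp
  · push Not at hnΛ
    have hΛR : (0 : ℝ) < Λ := by exact_mod_cast hΛ0
    obtain ⟨x, hx⟩ : ∃ x : ℝ, x = (n : ℝ) / Λ := ⟨_, rfl⟩
    have hx1 : 1 < x := by
      rw [hx, lt_div_iff₀ hΛR, one_mul]; exact_mod_cast hnΛ
    have hxn : (n : ℝ) = x * Λ := by rw [hx]; field_simp
    have hx0 : 0 < x := by linarith
    have hy1 : 1 ≤ √x := by
      rw [show (1 : ℝ) = √1 by simp]
      exact Real.sqrt_le_sqrt hx1.le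
    have hyx : √x ≤ x := by
      have h1 : √x * √x = x := Real.mul_self_sqrt hx0.le
      nlinarith
    have hqR : (5000 : ℝ) ≤ q := by exact_mod_cast hq
    have hwR : (0 : ℝ) < w := by exact_mod_cast hw
    -- sizes
    have hM : (((I ∪ B).card + 16 * cr D I : ℕ) : ℝ) ≤ 2 * q ^ 2 * x := by
      have h1 : (5000 * w * (I.card + 16 * cr D I) : ℝ) ≤ x * (5000 * q ^ 2 * w) := by
        have h3 : ((5000 * w * (I.card + 16 * cr D I) : ℕ) : ℝ) ≤ n := by exact_mod_cast e1
        rw [hxn, hΛ] at h3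
        push_cast at h3
        exact h3
      have h2 : ((B.card : ℝ) * (w * q)) ≤ x * (5000 * q ^ 2 * w) := by
        have h3 : ((B.card * (w * q) : ℕ) : ℝ) ≤ n := by exact_mod_cast e3
        rw [hxn, hΛ] at h3
        push_cast at h3
        exact h3
      have h3 : ((I.card : ℝ) + 16 * cr D I) ≤ q ^ 2 * x := by
        have h4 : (5000 * (w : ℝ)) * (I.card + 16 * cr D I) ≤ (5000 * w) * (q ^ 2 * x) := by
          linarith [h1]
        exact le_of_mul_le_mul_left h4 (by positivity)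
      have h4 : (B.card : ℝ) ≤ 5000 * q * x := by
        have h5 : (w * q : ℝ) * B.card ≤ (w * q) * (5000 * q * x) := by nlinarith [h2]
        exact le_of_mul_le_mul_left h5 (by positivity)
      have h5 : (5000 : ℝ) * q * x ≤ q ^ 2 * x := by
        have : (5000 : ℝ) * q ≤ q ^ 2 := by nlinarith
        nlinarith
      have h6 : ((I ∪ B).card : ℝ) ≤ I.card + B.card := by exact_mod_cast card_union_le I B
      push_cast
      nlinarith
    obtain ⟨R, hR⟩ : ∃ R : ℕ, R = ⌈3.17 * (q : ℝ) * √x⌉₊ := ⟨_, rfl⟩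
    have hqx : (5000 : ℝ) ≤ q * √x := by nlinarith
    have hR0 : 0 < R := by
      rw [hR]; exact Nat.ceil_pos.2 (by nlinarith)
    have hRl : 3.17 * (q : ℝ) * √x ≤ R := by rw [hR]; exact Nat.le_ceil _
    have hRu : (R : ℝ) ≤ 3.17 * (q : ℝ) * √x + 1 := by
      rw [hR]; exact (Nat.ceil_lt_add_one (by positivity)).le
    have hR2 : 5 * ((I ∪ B).card + 16 * cr D I) ≤ R ^ 2 := by
      have h1 : (5 * (((I ∪ B).card + 16 * cr D I : ℕ) : ℝ)) ≤ (R : ℝ) ^ 2 := by
        have h2 : √x * √x = x := Real.mul_self_sqrt hx0.le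
        calc (5 * (((I ∪ B).card + 16 * cr D I : ℕ) : ℝ)) ≤ 5 * (2 * q ^ 2 * x) := by linarith
          _ ≤ (3.17 * (q : ℝ) * √x) ^ 2 := by
              have h3 : (3.17 * (q : ℝ) * √x) ^ 2 = 10.0489 * q ^ 2 * (√x * √x) := by ring
              rw [h3, h2]
              nlinarith [mul_pos (pow_pos (show (0 : ℝ) < q by linarith) 2) hx0]
          _ ≤ (R : ℝ) ^ 2 := pow_le_pow_left₀ (by positivity) hRl 2
      exact_mod_cast h1
    obtain ⟨wt, hwt⟩ : ∃ wt : V → ℕ, ∀ v, wt v =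
      if v ∈ I then 5000 * w + 5000 * q ^ 2 * a v else w * q := ⟨_, fun _ => rfl⟩
    obtain ⟨S, M₁, M₂, hSc, hSs, hM1, hM2, hM12, hcov, hcl1, hcl2, hX12, hX1, hX2⟩ :=
      split D hfin I B hcl wt (16 * 5000 * w) R hR0 hR2
    have hnot : ∀ v ∈ B, v ∉ I := fun v hv hv' => disjoint_left.1 hIB hv' hv
    have hXtot : ∑ v ∈ I ∪ B, wt v + 16 * 5000 * w * cr D I = n := by
      rw [← hn, pot, sum_union hIB]
      congr 2
      · apply sum_congr rfl
        intro v hv
        rw [hwt, if_pos hv]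
      · rw [← smul_eq_mul, ← sum_const]
        apply sum_congr rfl
        intro v hv
        rw [hwt, if_neg (hnot v hv)]
    rw [hXtot] at hX12 hX1 hX2
    have hpot : ∀ M : Finset V, M ⊆ (I ∪ B) \ S → pot D a q w (M ∩ I) ((M ∩ B) ∪ S) ≤
        (∑ v ∈ M, wt v + 16 * 5000 * w * cr D (M ∩ I)) + S.card * (w * q) := by
      intro M hM
      have h1 : M = (M ∩ I) ∪ (M ∩ B) := by
        ext v
        simp only [mem_union, mem_inter]
        constructor
        · intro hv
          have := mem_union.1 (mem_sdiff.1 (hM hv)).1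
          tauto
        · tauto
      have h2 : ∑ v ∈ M, wt v = ∑ v ∈ M ∩ I, wt v + ∑ v ∈ M ∩ B, wt v := by
        conv_lhs => rw [h1]
        rw [sum_union]
        exact disjoint_left.2 fun v hv hv' => hnot v (mem_inter.1 hv').2 (mem_inter.1 hv).2
      rw [h2]
      unfold pot
      have h3 : ∑ v ∈ M ∩ I, wt v = ∑ v ∈ M ∩ I, (5000 * w + 5000 * q ^ 2 * a v) := by
        apply sum_congr rfl
        intro v hv
        rw [hwt, if_pos (mem_inter.1 hv).2]
      have h4 : ∑ v ∈ M ∩ B, wt v = (M ∩ B).card * (w * q) := by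
        rw [← smul_eq_mul, ← sum_const]
        apply sum_congr rfl
        intro v hv
        rw [hwt, if_neg (hnot v (mem_inter.1 hv).2)]
      rw [h3, h4]
      have h5 : ((M ∩ B) ∪ S).card * (w * q) ≤ (M ∩ B).card * (w * q) + S.card * (w * q) := by
        rw [← add_mul]
        exact Nat.mul_le_mul_right _ (card_union_le _ _)
      omega
    have hSb : ((S.card : ℝ) * (w * q)) ≤ 0.0034 * √x * Λ := by
      have h1 : (S.card : ℝ) ≤ 5 * R := by exact_mod_cast hSc
      have h2 : (S.card : ℝ) ≤ 17 * (q * √x) := by nlinarith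
      calc ((S.card : ℝ) * (w * q)) ≤ 17 * (q * √x) * (w * q) :=
            mul_le_mul_of_nonneg_right h2 (by positivity)
        _ = 0.0034 * √x * Λ := by
            rw [hΛ]; push_cast; ring
    have hXR : ∀ M : Finset V, 3 * (∑ v ∈ M, wt v + 16 * 5000 * w * cr D (M ∩ I)) ≤ 2 * n →
        M ⊆ (I ∪ B) \ S →
        (pot D a q w (M ∩ I) ((M ∩ B) ∪ S) : ℝ) ≤ 2 / 3 * n + 0.0034 * √x * Λ := by
      intro M h1 hM
      have h2 := hpot M hM
      have h3 : (3 : ℝ) * ((∑ v ∈ M, wt v + 16 * 5000 * w * cr D (M ∩ I) : ℕ) : ℝ) ≤ 2 * n := by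
        exact_mod_cast h1
      have h4 : (pot D a q w (M ∩ I) ((M ∩ B) ∪ S) : ℝ) ≤
          ((∑ v ∈ M, wt v + 16 * 5000 * w * cr D (M ∩ I) : ℕ) : ℝ) + (S.card : ℝ) * (w * q) := by
        exact_mod_cast h2
      linarith
    have hlt : ∀ M : Finset V, 3 * (∑ v ∈ M, wt v + 16 * 5000 * w * cr D (M ∩ I)) ≤ 2 * n →
        M ⊆ (I ∪ B) \ S → pot D a q w (M ∩ I) ((M ∩ B) ∪ S) < n := by
      intro M h1 hM
      have h2 := hXR M h1 hM
      have h3 : (pot D a q w (M ∩ I) ((M ∩ B) ∪ S) : ℝ) < n := by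
        have h4 : √x * Λ ≤ x * Λ := mul_le_mul_of_nonneg_right hyx hΛR.le
        have h5 : 0 < x * Λ := mul_pos hx0 hΛR
        rw [hxn] at h2 ⊢
        nlinarith
      exact_mod_cast h3
    have hcl' : ∀ M : Finset V, M ⊆ (I ∪ B) \ S →
        (∀ v ∈ M, v ∈ I → ∀ u, G.Adj v u → u ∈ M ∨ u ∈ S) →
        ∀ v ∈ M ∩ I, ∀ u, G.Adj v u → u ∈ M ∩ I ∨ u ∈ (M ∩ B) ∪ S := by
      intro M hM h v hv u hvu
      rw [mem_inter] at hv
      rcases h v hv.1 hv.2 u hvu with h1 | h1
      · rcases mem_union.1 (mem_sdiff.1 (hM h1)).1 with h2 | h2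
        · exact Or.inl (mem_inter.2 ⟨h1, h2⟩)
        · exact Or.inr (mem_union_left _ (mem_inter.2 ⟨h1, h2⟩))
      · exact Or.inr (mem_union_right _ h1)
    have hdis : ∀ M : Finset V, M ⊆ (I ∪ B) \ S → Disjoint (M ∩ I) ((M ∩ B) ∪ S) := by
      intro M hM
      rw [disjoint_left]
      intro v hv hv'
      rw [mem_inter] at hv
      rcases mem_union.1 hv' with h | h
      · exact hnot v (mem_inter.1 h).2 hv.2
      · exact (mem_sdiff.1 (hM hv.1)).2 h
    obtain ⟨L₁, hL1, hL1c, hL1l⟩ := ih _ (hlt M₁ hX1 hM1) (M₁ ∩ I) ((M₁ ∩ B) ∪ S) (hdis M₁ hM1)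
      (hcl' M₁ hM1 hcl1) rfl
    obtain ⟨L₂, hL2, hL2c, hL2l⟩ := ih _ (hlt M₂ hX2 hM2) (M₂ ∩ I) ((M₂ ∩ B) ∪ S) (hdis M₂ hM2)
      (hcl' M₂ hM2 hcl2) rfl
    refine ⟨L₁ ++ L₂, ?_, ?_, ?_⟩
    · intro p hp
      rcases List.mem_append.1 hp with hp | hp
      · exact hL1 p hp
      · exact hL2 p hp
    · intro v hv
      rcases hcov v hv with h | h | h
      · obtain ⟨p, hp, hvp⟩ := hL1c v (mem_union_right _ (mem_union_right _ h))
        exact ⟨p, List.mem_append_left _ hp, hvp⟩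
      · obtain ⟨p, hp, hvp⟩ := hL1c v (by
          rcases mem_union.1 hv with h1 | h1
          · exact mem_union_left _ (mem_inter.2 ⟨h, h1⟩)
          · exact mem_union_right _ (mem_union_left _ (mem_inter.2 ⟨h, h1⟩)))
        exact ⟨p, List.mem_append_left _ hp, hvp⟩
      · obtain ⟨p, hp, hvp⟩ := hL2c v (by
          rcases mem_union.1 hv with h1 | h1
          · exact mem_union_left _ (mem_inter.2 ⟨h, h1⟩)
          · exact mem_union_right _ (mem_union_left _ (mem_inter.2 ⟨h, h1⟩)))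
        exact ⟨p, List.mem_append_right _ hp, hvp⟩
    · rw [List.length_append]
      push_cast
      rw [← hx]
      refine le_trans (add_le_add hL1l hL2l) (count_ineq hx1 (by positivity) (by positivity)
        ?_ ?_ ?_)
      · rw [← add_div, div_le_iff₀ hΛR]
        have h1 := hpot M₁ hM1
        have h2 := hpot M₂ hM2
        have h3 : pot D a q w (M₁ ∩ I) ((M₁ ∩ B) ∪ S) + pot D a q w (M₂ ∩ I) ((M₂ ∩ B) ∪ S) ≤
            n + 2 * (S.card * (w * q)) := by omega
        have h4 : (pot D a q w (M₁ ∩ I) ((M₁ ∩ B) ∪ S) : ℝ) +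
            (pot D a q w (M₂ ∩ I) ((M₂ ∩ B) ∪ S) : ℝ) ≤ n + 2 * ((S.card : ℝ) * (w * q)) := by
          exact_mod_cast h3
        rw [hxn] at h4
        linarith
      · rw [div_le_iff₀ hΛR]
        have h1 := hXR M₁ hX1 hM1
        rw [hxn] at h1
        linarith
      · rw [div_le_iff₀ hΛR]
        have h1 := hXR M₂ hX2 hM2
        rw [hxn] at h1
        linarith

open Classical in
/-- **Division of a drawn graph.** Let `G` be drawn in the plane with `k` crossings, let `a` be a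
weight of the vertices, `w ≥ 1` and `q ≥ 5000`. There are pieces (sets of inner vertices and sets of
boundary vertices) with the following properties: all neighbours of an inner vertex of a piece
belong to the piece, every vertex is in a piece, each piece has at most `q ^ 2` inner vertices of
weight at most `w` together and at most `5000 q` boundary vertices, and the number of the pieces is
at most `10 ((|V| + 16 k) / q ^ 2 + a(V) / w) + 1`. -/
theorem division (D : Drawing G) (hfin : D.crossings.Finite) (a : V → ℕ) (q w : ℕ)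
    (hq : 5000 ≤ q) (hw : 0 < w) :
    ∃ L : List (Finset V × Finset V), (∀ p ∈ L,
      (∀ v ∈ p.1, ∀ u, G.Adj v u → u ∈ p.1 ∨ u ∈ p.2) ∧ p.1.card ≤ q ^ 2 ∧
      p.2.card ≤ 5000 * q ∧ ∑ v ∈ p.1, a v ≤ w) ∧
      (∀ v, ∃ p ∈ L, v ∈ p.1 ∨ v ∈ p.2) ∧
      L.length * (q ^ 2 * w) ≤
        10 * (w * (Fintype.card V + 16 * D.crossings.ncard) + q ^ 2 * ∑ v, a v) + q ^ 2 * w := by
  obtain ⟨L, h1, h2, h3⟩ := division_aux D hfin a q w hq hw _ univ ∅ (disjoint_empty_right _)
    (fun _ _ u _ => Or.inl (mem_univ u)) rfl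
  refine ⟨L, h1, fun v => h2 v (mem_union_left _ (mem_univ v)), ?_⟩
  obtain ⟨Λ, hΛ⟩ : ∃ Λ, Λ = 5000 * q ^ 2 * w := ⟨_, rfl⟩
  have hΛ0 : 0 < Λ := by rw [hΛ]; positivity
  have hΛR : (0 : ℝ) < Λ := by exact_mod_cast hΛ0
  rw [← hΛ] at h3
  obtain ⟨n, hn⟩ : ∃ n, n = pot D a q w univ ∅ := ⟨_, rfl⟩
  rw [← hn] at h3
  have h4 : n ≤ 5000 * w * (Fintype.card V + 16 * D.crossings.ncard) +
      5000 * q ^ 2 * ∑ v, a v := by
    rw [hn, pot_card, card_empty, zero_mul, add_zero, card_univ]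
    apply Nat.add_le_add_right
    apply Nat.mul_le_mul_left
    have := cr_le D hfin univ
    omega
  have h5 : (L.length : ℝ) ≤ 10 * (n / Λ) + 1 := by
    refine h3.trans (max_le ?_ ?_)
    · have : (0 : ℝ) ≤ n / Λ := by positivity
      linarith
    · have := Real.sqrt_nonneg ((n : ℝ) / Λ)
      linarith
  have h6 : (L.length : ℝ) * Λ ≤ 10 * n + Λ := by
    calc (L.length : ℝ) * Λ ≤ (10 * (n / Λ) + 1) * Λ := mul_le_mul_of_nonneg_right h5 hΛR.le
      _ = _ := by field_simp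
  have h7 : L.length * Λ ≤ 10 * n + Λ := by exact_mod_cast h6
  have h8 : 5000 * (L.length * (q ^ 2 * w)) ≤ 5000 * (10 * (w * (Fintype.card V +
      16 * D.crossings.ncard) + q ^ 2 * ∑ v, a v) + q ^ 2 * w) := by
    calc 5000 * (L.length * (q ^ 2 * w)) = L.length * Λ := by rw [hΛ]; ring
      _ ≤ 10 * n + Λ := h7
      _ ≤ 10 * (5000 * w * (Fintype.card V + 16 * D.crossings.ncard) +
          5000 * q ^ 2 * ∑ v, a v) + Λ := by omega
      _ = _ := by rw [hΛ]; ring
  exact Nat.le_of_mul_le_mul_left h8 (by norm_num)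

end Pool.Agent.U514.PD
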