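import Mathlib
import Pool.Agent.U514.PD.Division
import Pool.Agent.Y631.TrFine

/-!
# Circuits drawn in the plane
-/

set_option autoImplicit false

namespace Pool.Agent.U514.PD

open Finset Pool.Agent.Helper770.Crossing Pool.Agent.Y631.Tr

variable {ι ω α : Type}

/-- the graph of the gates of a circuit: two gates are adjacent if there is a wire from one of them
to the other (the inputs are deleted) -/
def gateGraph (C : Net ι ω α) : SimpleGraph (Fin C.size) := SimpleGraph.fromRel C.Joined

/-- the graph of the gates can be drawn in the plane with at most `k` crossings -/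
def CrossingsLE (C : Net ι ω α) (k : ℕ) : Prop :=
  ∃ D : Drawing (gateGraph C), D.crossings.Finite ∧ D.crossings.ncard ≤ k

/-- **The pieces** of a circuit drawn in the plane. -/
theorem exists_pieces3 (C : Net ι ω α) (k : ℕ) (h : CrossingsLE C k) (q w : ℕ) (hq : 5000 ≤ q)
    (hw : 0 < w) :
    ∃ L : List (Finset (Fin C.size) × Finset (Fin C.size)),
      (∀ p ∈ L, Closed C.Joined p.1 p.2 ∧ p.2.card ≤ 5000 * q ∧ ∑ g ∈ p.1, C.readsAt g ≤ w) ∧
      (∀ g, ∃ p ∈ L, g ∈ p.1 ∨ g ∈ p.2) ∧
      L.length * (q ^ 2 * w) ≤ 10 * (w * (C.size + 16 * k) + q ^ 2 * C.reads) + q ^ 2 * w := by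
  obtain ⟨D, hfin, hk⟩ := h
  obtain ⟨L, h1, h2, h3⟩ := division D hfin C.readsAt q w hq hw
  refine ⟨L, ?_, h2, ?_⟩
  · intro p hp
    obtain ⟨h4, -, h5, h6⟩ := h1 p hp
    refine ⟨?_, h5, h6⟩
    intro h g hhg hg
    have hne : h ≠ g := by
      obtain ⟨a, ha⟩ := hhg
      exact (C.acyclic g a h ha).ne
    exact h4 g hg h ((SimpleGraph.fromRel_adj _ _ _).2 ⟨hne.symm, Or.inr hhg⟩)
  · refine h3.trans ?_
    apply Nat.add_le_add_right
    apply Nat.mul_le_mul_left
    rw [Fintype.card_fin]
    have : C.reads = ∑ g, C.readsAt g := rfl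
    rw [this]
    apply Nat.add_le_add_right
    apply Nat.mul_le_mul_left
    omega

end Pool.Agent.U514.PD
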