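import Mathlib
import Pool.Agent.U514.PD.ApspNet

set_option autoImplicit false

/-!
# All-pairs shortest paths by circuits drawn in the plane: choice of the parameters

The proofs of `apsp_aux3` and `apsp_det3` are those of `Pool.Agent.Y631.Tr.apsp_aux` and `apsp_det`,
for circuits that are divided into pieces in an arbitrary way.
-/

open Finset

namespace Pool.Agent.U514.PD

open Pool.Agent.Y631.Tr
open Pool.Agent.H537R2.Apsp (Graph)
open Pool.Agent.H537R2.Apsq (cnt cnt_mono cnt_nonneg cnt_eq Cons exists_family)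
open Pool.Agent.H537R2.Apsr
open Pool.Agent.W896.MO (dists num_pieces)

/-- the circuit is divided into at most `ν` pieces with boundaries of size at most `β` and at most
`w` reads -/
def Divided {ι ω α : Type} (C : Net ι ω α) (β w ν : ℕ) : Prop :=
  ∃ L : List (Finset (Fin C.size) × Finset (Fin C.size)),
    (∀ p ∈ L, Closed C.Joined p.1 p.2 ∧ p.2.card ≤ β ∧ ∑ g ∈ p.1, C.readsAt g ≤ w) ∧
    (∀ g, ∃ p ∈ L, g ∈ p.1 ∨ g ∈ p.2) ∧ L.length ≤ ν

/-- the number of reads in a piece, about `N ^ 2 / (log N) ^ 4` -/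
def base (N : ℕ) : ℕ :=
  2 ^ (2 * (Nat.log 2 N - (Nat.log 2 (Nat.log 2 N) + 1) - 3) -
    2 * (Nat.log 2 (Nat.log 2 N) + 1) - 15)

theorem base_le {N : ℕ} (hN : 0 < N) : base N ≤ N ^ 2 := by
  unfold base
  calc _ ≤ 2 ^ (Nat.log 2 N * 2) := Nat.pow_le_pow_right (by norm_num) (by omega)
    _ = (2 ^ Nat.log 2 N) ^ 2 := by rw [pow_mul]
    _ ≤ N ^ 2 := Nat.pow_le_pow_left (Nat.pow_log_le_self 2 (by omega)) 2

theorem base_pos (N : ℕ) : 0 < base N := by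
  unfold base
  positivity

/-- The bound with explicit parameters. -/
theorem apsp_aux3 {N L φ ℓ κ S T a : ℕ} (ha : a = 2 ^ (2 * ℓ - 2 * φ - 15)) (hN : 2 ^ L ≤ N) (hNL : N < 2 ^ (L + 1)) (hℓ : L = ℓ + φ + 3)
    (hφ : L + 1 ≤ 2 ^ φ) (hφ1 : 1 ≤ φ) (hκ : 20 * S ≤ 2 ^ κ)
    (hℓ6 : 6 ≤ ℓ) (h1 : κ + 4 * φ + 20 ≤ 2 * ℓ)
    (hT : T * 2 ^ (κ + 6 * φ + 35) ≤ 2 ^ (4 * ℓ)) (hTN : T < N ^ 4) (hT0 : 0 < T) :
    ∃ (c m : ℕ) (K : ℕ → Fin (2 ^ ℓ) → Finset (Fin (2 ^ ℓ))) (e : Vx c (2 ^ ℓ) → Fin N),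
      Function.Injective e ∧
      ∀ (α : Type) [Fintype α] (C : Net (Fin N × Fin N) (Fin N × Fin N) α) (inp : ℕ∞ → α)
        (dec : α → ℕ∞) (t b : ℕ), Divided C (2 * (t + 1)) (4 * a) (T / a + 1) →
        Fintype.card α ≤ 2 ^ b → b * (t + 1) + L ≤ S →
      2 * Nat.card {x : Jx c (2 ^ ℓ) → Fin (2 ^ m) // NetDist C inp dec (graph K e x)} ≤
        Nat.card (Jx c (2 ^ ℓ) → Fin (2 ^ m)) := by
  classical
  obtain ⟨m, hm⟩ : ∃ m, m + 13 + κ + 2 * φ = 2 * ℓ := ⟨2 * ℓ - 13 - κ - 2 * φ, by omega⟩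
  obtain ⟨c, hc⟩ : ∃ c, c + φ + 4 = m := ⟨m - 4 - φ, by omega⟩
  have hφ2 : 2 ^ (φ + 1) = 2 * 2 ^ φ := by rw [pow_succ]; ring
  have hc1 : c + 1 ≤ 2 ^ (φ + 1) := by omega
  choose K hK1 hK2 using exists_family ℓ φ (by omega) hφ1
  obtain ⟨e, he⟩ := exists_embedding (c := c) (n := 2 ^ ℓ) (N := N) (by
    calc 2 * 2 ^ ℓ + 2 * ((c + 1) * 2 ^ ℓ) = (2 + 2 * (c + 1)) * 2 ^ ℓ := by ring
      _ ≤ (8 * 2 ^ φ) * 2 ^ ℓ := Nat.mul_le_mul_right _ (by omega)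
      _ = 2 ^ L := by rw [hℓ, pow_add, pow_add]; ring
      _ ≤ N := hN)
  refine ⟨c, m, K, e, he, ?_⟩
  intro α _ C inp dec t b hdiv hb hS
  obtain ⟨r, hr⟩ : ∃ r, r = κ + 3 * φ + 5 := ⟨_, rfl⟩
  have hrc : r + c = 2 * ℓ - 12 := by omega
  obtain ⟨y, hy⟩ : ∃ y, y = (ℓ + 1) * 2 ^ (r + 13) := ⟨_, rfl⟩
  have ha : a = 2 ^ (r + c - 2 * φ - 3) := by
    rw [ha]; congr 1; omega
  have ha4 : 4 * a = 2 ^ (r + c - 2 * φ - 1) := by
    rw [ha, show r + c - 2 * φ - 1 = 2 + (r + c - 2 * φ - 3) by omega, pow_add]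
    norm_num
  have ha0 : 0 < a := by rw [ha]; positivity
  have hy0 : 1 ≤ y := by rw [hy]; exact Nat.succ_le_of_lt (by positivity)
  have hBn := num_pieces hr hrc (by omega) hy ha h1 hT
  obtain ⟨β, hβ⟩ : ∃ β : ℝ, β = Real.exp (-((2 : ℝ) ^ (r + c) / 2 ^ (2 * φ + 1 + m))) := ⟨_, rfl⟩
  have hE : ((20 * S : ℕ) : ℝ) ≤ (2 : ℝ) ^ (r + c) / 2 ^ (2 * φ + 1 + m) := by
    rw [le_div_iff₀ (by positivity)]
    have h1 : (2 : ℝ) ^ (r + c) = 2 ^ κ * 2 ^ (2 * φ + 1 + m) := by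
      rw [← pow_add, show κ + (2 * φ + 1 + m) = r + c by omega]
    rw [h1]
    have h2 : ((20 * S : ℕ) : ℝ) ≤ 2 ^ κ := by exact_mod_cast hκ
    exact mul_le_mul_of_nonneg_right h2 (by positivity)
  have hβ1 : β * 2 ^ (20 * S) ≤ 1 := by
    have h2 : ((2 : ℝ) ^ (20 * S)) ≤ Real.exp ((20 * S : ℕ) : ℝ) := by
      have h3 : (2 : ℝ) ≤ Real.exp 1 := by linarith [Real.exp_one_gt_d9]
      calc ((2 : ℝ) ^ (20 * S)) ≤ (Real.exp 1) ^ (20 * S) := pow_le_pow_left₀ (by norm_num) h3 _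
        _ = Real.exp ((20 * S : ℕ) : ℝ) := by rw [← Real.exp_nat_mul, mul_one]
    have h3 : β ≤ Real.exp (-((20 * S : ℕ) : ℝ)) := by
      rw [hβ]
      exact Real.exp_le_exp.2 (neg_le_neg hE)
    calc β * 2 ^ (20 * S) ≤ Real.exp (-((20 * S : ℕ) : ℝ)) * Real.exp ((20 * S : ℕ) : ℝ) :=
          mul_le_mul h3 h2 (by positivity) (Real.exp_pos _).le
      _ = 1 := by rw [← Real.exp_add, neg_add_cancel, Real.exp_zero]
  have hBn' : 2 * ((T / a + 1) * y) ≤ (2 ^ ℓ) ^ 2 := by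
    rw [← pow_mul, mul_comm ℓ 2]
    exact hBn
  have hcM : 8 * ((c + 1) * 2 ^ c) ≤ 2 ^ m := by
    calc 8 * ((c + 1) * 2 ^ c) ≤ 8 * (2 ^ (φ + 1) * 2 ^ c) :=
          Nat.mul_le_mul_left _ (Nat.mul_le_mul_right _ hc1)
      _ = 2 ^ m := by
          rw [← hc, pow_add 2 (c + φ), pow_add 2 c, hφ2]; ring
  have hs : 4 * ((T / a + 1) * 2 ^ (b * (2 * (t + 1)))) ≤ 2 ^ (20 * S) := by
    have h2 : T / a + 1 ≤ 2 ^ (4 * (L + 1)) := by
      have h3 : T / a ≤ T := Nat.div_le_self _ _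
      have h4 : N ^ 4 < (2 ^ (L + 1)) ^ 4 := Nat.pow_lt_pow_left hNL (by norm_num)
      rw [← pow_mul] at h4
      have h5 : (L + 1) * 4 = 4 * (L + 1) := by ring
      rw [h5] at h4
      omega
    calc 4 * ((T / a + 1) * 2 ^ (b * (2 * (t + 1)))) ≤
          2 ^ 2 * (2 ^ (4 * (L + 1)) * 2 ^ (b * (2 * (t + 1)))) :=
          Nat.mul_le_mul (by norm_num) (Nat.mul_le_mul_right _ h2)
      _ = 2 ^ (2 + (4 * (L + 1) + b * (2 * (t + 1)))) := by rw [pow_add, pow_add]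
      _ ≤ 2 ^ (20 * S) := by
          apply Nat.pow_le_pow_right (by norm_num)
          have h6 : b * (2 * (t + 1)) = 2 * (b * (t + 1)) := by ring
          omega
  obtain ⟨Lp, hL1, hL2, hL3⟩ := hdiv
  refine apsp_net3 (by positivity) (by positivity) K hK1 hcM he hβ1 (w := 4 * a) (N₁ := y)
    (ν := T / a + 1) ?_ hy0 hBn' C inp dec Lp hL1 hL2 hL3 (Nat.succ_pos _) hb hs
  intro Q ρ R hQ hR
  rw [hβ]
  rw [ha4] at hQ
  rw [hy] at hR
  exact leaf K hK2 hℓ6 (by omega) (by omega) Q ρ hQ R hR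

/-- The lower bound for deterministic circuits, on average. -/
theorem apsp_det3 {N S T : ℕ} (hN : 64 ≤ Nat.log 2 N) (hS : Nat.log 2 N ≤ S) (hT : N ^ 2 ≤ T)
    (h2 : 2 ^ 68 * (T * S * (Nat.log 2 N) ^ 10) ≤ N ^ 4) :
    ∃ (c m ℓ : ℕ) (K : ℕ → Fin (2 ^ ℓ) → Finset (Fin (2 ^ ℓ))) (e : Vx c (2 ^ ℓ) → Fin N),
      Function.Injective e ∧
      ∀ (α : Type) [Fintype α] (C : Net (Fin N × Fin N) (Fin N × Fin N) α) (inp : ℕ∞ → α)
        (dec : α → ℕ∞) (t b : ℕ), Divided C (2 * (t + 1)) (4 * base N) (T / base N + 1) →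
        Fintype.card α ≤ 2 ^ b → b * (t + 1) + Nat.log 2 N ≤ S →
      2 * Nat.card {x : Jx c (2 ^ ℓ) → Fin (2 ^ m) // NetDist C inp dec (graph K e x)} ≤
        Nat.card (Jx c (2 ^ ℓ) → Fin (2 ^ m)) := by
  set L := Nat.log 2 N with hL
  have hN0 : N ≠ 0 := by
    rintro rfl
    simp at hL
    omega
  have hNL : 2 ^ L ≤ N := Nat.pow_log_le_self 2 hN0
  have hNL' : N < 2 ^ (L + 1) := Nat.lt_pow_succ_log_self (by norm_num) _
  set φ := Nat.log 2 L + 1 with hφ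
  have hφ1 : L < 2 ^ φ := Nat.lt_pow_succ_log_self (by norm_num) _
  have hφ2 : 2 ^ φ ≤ 2 * L := by
    rw [hφ, pow_succ, mul_comm]
    exact Nat.mul_le_mul_left _ (Nat.pow_log_le_self 2 (by omega))
  set κ := Nat.log 2 (20 * S) + 1 with hκ
  have hκ1 : 20 * S < 2 ^ κ := Nat.lt_pow_succ_log_self (by norm_num) _
  have hκ2 : 2 ^ κ ≤ 40 * S := by
    have : 2 ^ Nat.log 2 (20 * S) ≤ 20 * S := Nat.pow_log_le_self 2 (by omega)
    rw [hκ, pow_succ]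
    omega
  have hN2 : 2 ^ 68 * (S * L ^ 10) ≤ N ^ 2 := by
    have h3 : (2 ^ 68 * (S * L ^ 10)) * N ^ 2 ≤ N ^ 2 * N ^ 2 := by
      calc (2 ^ 68 * (S * L ^ 10)) * N ^ 2 ≤ (2 ^ 68 * (S * L ^ 10)) * T :=
            Nat.mul_le_mul_left _ hT
        _ = 2 ^ 68 * (T * S * L ^ 10) := by ring
        _ ≤ N ^ 4 := h2
        _ = N ^ 2 * N ^ 2 := by ring
    exact Nat.le_of_mul_le_mul_right h3 (by positivity)
  -- a lower bound for `ℓ`
  have hφL : φ + 3 + 6 ≤ L := by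
    have h3 : Nat.log 2 L ≤ L - 10 := by
      have h4 : L < 2 ^ (L - 9) := by
        have h5 : ∀ j, 64 + j < 2 ^ (55 + j) := by
          intro j
          induction j with
          | zero => norm_num
          | succ j ih =>
            rw [show 55 + (j + 1) = (55 + j) + 1 by ring, pow_succ]
            omega
        obtain ⟨j, hj⟩ := Nat.exists_eq_add_of_le hN
        rw [hj, show 64 + j - 9 = 55 + j by omega]
        exact h5 j
      have h5 := Nat.log_lt_of_lt_pow (by omega) h4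
      omega
    omega
  obtain ⟨ℓ, hℓ⟩ : ∃ ℓ, L = ℓ + φ + 3 := ⟨L - φ - 3, by omega⟩
  have h1 : κ + 4 * φ + 20 ≤ 2 * ℓ := by
    have h3 : 2 ^ (κ + 4 * φ + 20) * 2 ^ (2 * φ + 8) ≤ 2 ^ (2 * ℓ) * 2 ^ (2 * φ + 8) := by
      calc 2 ^ (κ + 4 * φ + 20) * 2 ^ (2 * φ + 8) = 2 ^ κ * (2 ^ φ) ^ 6 * 2 ^ 28 := by
            rw [← pow_mul, ← pow_add, ← pow_add, ← pow_add]; congr 1; ring
        _ ≤ (40 * S) * (2 * L) ^ 6 * 2 ^ 28 := by gcongr
        _ = (40 * 2 ^ 34) * (S * L ^ 6) := by ring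
        _ ≤ 2 ^ 68 * (S * L ^ 10) := by
            apply Nat.mul_le_mul (by norm_num)
            apply Nat.mul_le_mul_left
            exact Nat.pow_le_pow_right (by omega) (by norm_num)
        _ ≤ N ^ 2 := hN2
        _ ≤ (2 ^ (L + 1)) ^ 2 := Nat.pow_le_pow_left hNL'.le 2
        _ = 2 ^ (2 * ℓ) * 2 ^ (2 * φ + 8) := by
            rw [← pow_mul, ← pow_add, hℓ]; congr 1; ring
    have h4 := Nat.le_of_mul_le_mul_right h3 (by positivity)
    exact (Nat.pow_le_pow_iff_right (by norm_num : 1 < 2)).1 h4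
  have hT' : T * 2 ^ (κ + 6 * φ + 35) ≤ 2 ^ (4 * ℓ) := by
    have h3 : T * 2 ^ (κ + 6 * φ + 35) * 2 ^ (4 * φ + 16) ≤ 2 ^ (4 * ℓ) * 2 ^ (4 * φ + 16) := by
      calc T * 2 ^ (κ + 6 * φ + 35) * 2 ^ (4 * φ + 16)
          = T * 2 ^ κ * (2 ^ φ) ^ 10 * 2 ^ 51 := by
            rw [← pow_mul, mul_assoc, ← pow_add, mul_assoc (T * 2 ^ κ), ← pow_add,
              mul_assoc, ← pow_add]
            congr 2
            ring
        _ ≤ T * (40 * S) * (2 * L) ^ 10 * 2 ^ 51 := by gcongr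
        _ = (40 * 2 ^ 61) * (T * S * L ^ 10) := by ring
        _ ≤ 2 ^ 68 * (T * S * L ^ 10) := Nat.mul_le_mul_right _ (by norm_num)
        _ ≤ N ^ 4 := h2
        _ ≤ (2 ^ (L + 1)) ^ 4 := Nat.pow_le_pow_left hNL'.le 4
        _ = 2 ^ (4 * ℓ) * 2 ^ (4 * φ + 16) := by
            rw [← pow_mul, ← pow_add, hℓ]; congr 1; ring
    exact Nat.le_of_mul_le_mul_right h3 (by positivity)
  have hT0 : 0 < T := lt_of_lt_of_le (by positivity) hT
  have hTN : T < N ^ 4 := by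
    have h3 : 1 ≤ S * L ^ 10 :=
      Nat.mul_le_mul (show 1 ≤ S by omega) (Nat.one_le_pow _ _ (by omega))
    have h5 : T * 1 ≤ T * (S * L ^ 10) := Nat.mul_le_mul_left _ h3
    have h6 : T * S * L ^ 10 = T * (S * L ^ 10) := by ring
    omega
  have hbase : base N = 2 ^ (2 * ℓ - 2 * φ - 15) := by
    unfold base
    rw [← hL, ← hφ]
    congr 1
    omega
  obtain ⟨c, m, K, e, he, h⟩ := apsp_aux3 (N := N) (S := S) (T := T) hbase hNL hNL' hℓ (by omega)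
    (by omega) hκ1.le (by omega) h1 hT' hTN hT0
  exact ⟨c, m, ℓ, K, e, he, h⟩


/-- The numbers. -/
theorem numbers {N L a b r g T q s : ℕ} (hN : 0 < N) (hL : 1 ≤ L) (haN : a ≤ N ^ 2) (hb : 1 ≤ b)
    (hT : T = 5 * r + N ^ 2) (hs : s ^ 2 * T ≤ 20 * a * (16 * g)) (hq : q = 5001 + s)
    (hcon : 2 ^ 175 * (b ^ 2 * ((r + N ^ 2) * (g + N ^ 2)) * L ^ 20) ≤ N ^ 6) :
    2 ^ 68 * (T * (2500 * b * q + L) * L ^ 10) ≤ N ^ 4 := by
  have hN2 : 0 < N ^ 2 := by positivity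
  have hT5 : T ≤ 5 * (r + N ^ 2) := by omega
  have hb2 : b ≤ b ^ 2 := by nlinarith
  have hL1 : L ^ 10 ≤ L ^ 20 := Nat.pow_le_pow_right hL (by norm_num)
  have hL2 : L ^ 11 ≤ L ^ 20 := Nat.pow_le_pow_right hL (by norm_num)
  obtain ⟨X, hX⟩ : ∃ X, X = b ^ 2 * ((r + N ^ 2) * (g + N ^ 2)) * L ^ 20 := ⟨_, rfl⟩
  rw [← hX] at hcon
  -- the three parts
  have p1 : 4 * (2 ^ 68 * (T * (2500 * b * 5001) * L ^ 10)) ≤ N ^ 4 := by
    refine Nat.le_of_mul_le_mul_right (?_ : _ * N ^ 2 ≤ _ * N ^ 2) hN2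
    calc 4 * (2 ^ 68 * (T * (2500 * b * 5001) * L ^ 10)) * N ^ 2 =
          (4 * 2 ^ 68 * 2500 * 5001) * ((b * (T * N ^ 2)) * L ^ 10) := by ring
      _ ≤ (4 * 2 ^ 68 * 2500 * 5001) * ((b ^ 2 * ((5 * (r + N ^ 2)) * (g + N ^ 2))) * L ^ 20) := by
          apply Nat.mul_le_mul_left
          refine Nat.mul_le_mul ?_ hL1
          exact Nat.mul_le_mul hb2 (Nat.mul_le_mul hT5 (by omega))
      _ = (4 * 2 ^ 68 * 2500 * 5001 * 5) * X := by rw [hX]; ring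
      _ ≤ 2 ^ 175 * X := Nat.mul_le_mul_right _ (by norm_num)
      _ ≤ N ^ 6 := hcon
      _ = N ^ 4 * N ^ 2 := by ring
  have p3 : 4 * (2 ^ 68 * (T * L * L ^ 10)) ≤ N ^ 4 := by
    refine Nat.le_of_mul_le_mul_right (?_ : _ * N ^ 2 ≤ _ * N ^ 2) hN2
    calc 4 * (2 ^ 68 * (T * L * L ^ 10)) * N ^ 2 =
          (4 * 2 ^ 68) * ((1 * (T * N ^ 2)) * L ^ 11) := by ring
      _ ≤ (4 * 2 ^ 68) * ((b ^ 2 * ((5 * (r + N ^ 2)) * (g + N ^ 2))) * L ^ 20) := by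
          apply Nat.mul_le_mul_left
          refine Nat.mul_le_mul ?_ hL2
          exact Nat.mul_le_mul (by nlinarith) (Nat.mul_le_mul hT5 (by omega))
      _ = (4 * 2 ^ 68 * 5) * X := by rw [hX]; ring
      _ ≤ 2 ^ 175 * X := Nat.mul_le_mul_right _ (by norm_num)
      _ ≤ N ^ 6 := hcon
      _ = N ^ 4 * N ^ 2 := by ring
  have p2 : 4 * (2 ^ 68 * (T * (2500 * b * s) * L ^ 10)) ≤ N ^ 4 := by
    have h1 : (4 * (2 ^ 68 * (T * (2500 * b * s) * L ^ 10))) ^ 2 ≤ (N ^ 4) ^ 2 := by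
      calc (4 * (2 ^ 68 * (T * (2500 * b * s) * L ^ 10))) ^ 2 =
            (4 * 2 ^ 68 * 2500) ^ 2 * (b ^ 2 * (T * (s ^ 2 * T)) * L ^ 20) := by ring
        _ ≤ (4 * 2 ^ 68 * 2500) ^ 2 * (b ^ 2 * ((5 * (r + N ^ 2)) *
              (20 * N ^ 2 * (16 * (g + N ^ 2)))) * L ^ 20) := by
            apply Nat.mul_le_mul_left
            apply Nat.mul_le_mul_right
            apply Nat.mul_le_mul_left
            refine Nat.mul_le_mul hT5 (hs.trans ?_)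
            exact Nat.mul_le_mul (Nat.mul_le_mul_left _ haN) (Nat.mul_le_mul_left _ (by omega))
        _ = ((4 * 2 ^ 68 * 2500) ^ 2 * 5 * 20 * 16) * X * N ^ 2 := by rw [hX]; ring
        _ ≤ 2 ^ 175 * X * N ^ 2 := by
            apply Nat.mul_le_mul_right
            exact Nat.mul_le_mul_right _ (by norm_num)
        _ ≤ N ^ 6 * N ^ 2 := Nat.mul_le_mul_right _ hcon
        _ = (N ^ 4) ^ 2 := by ring
    exact (Nat.pow_le_pow_iff_left (by norm_num)).1 h1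
  have h4 : 4 * (2 ^ 68 * (T * (2500 * b * q + L) * L ^ 10)) =
      4 * (2 ^ 68 * (T * (2500 * b * 5001) * L ^ 10)) +
      4 * (2 ^ 68 * (T * (2500 * b * s) * L ^ 10)) + 4 * (2 ^ 68 * (T * L * L ^ 10)) := by
    rw [hq]; ring
  omega

/-- The division of circuits drawn in the plane. -/
theorem divided_of_crossings {ι ω α : Type} (C : Net ι ω α) {k r g a T s : ℕ}
    (h : CrossingsLE C k) (hr : C.reads ≤ r) (hg : C.size + k ≤ g) (ha : 0 < a) (hT0 : 0 < T)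
    (hT : 5 * r ≤ T) (hs : s = Nat.sqrt (20 * a * (16 * g) / T)) :
    Divided C (5000 * (5001 + s)) (4 * a) (T / a + 1) := by
  obtain ⟨L, h1, h2, h3⟩ := exists_pieces3 C k h (5001 + s) (4 * a) (by omega) (by omega)
  refine ⟨L, h1, h2, ?_⟩
  obtain ⟨q, hq⟩ : ∃ q, q = 5001 + s := ⟨_, rfl⟩
  rw [← hq] at h3
  -- `20 a g' ≤ q ^ 2 T`
  have h4 : 20 * a * (16 * g) ≤ q ^ 2 * T := by
    have h5 : 20 * a * (16 * g) / T < (s + 1) * (s + 1) := by
      rw [hs]; exact Nat.lt_succ_sqrt _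
    have h6 : 20 * a * (16 * g) < (s + 1) * (s + 1) * T := (Nat.div_lt_iff_lt_mul hT0).1 h5
    refine h6.le.trans (Nat.mul_le_mul_right _ ?_)
    rw [sq]
    exact Nat.mul_le_mul (by omega) (by omega)
  have hq0 : 0 < q := by omega
  have h5 : 16 * g ≥ C.size + 16 * k := by omega
  -- `L.length * (4 a) ≤ 2 T + 2.5 * ... `
  have h6 : (L.length * (4 * a)) * q ^ 2 ≤ (4 * T + 4 * a) * q ^ 2 := by
    calc (L.length * (4 * a)) * q ^ 2 = L.length * (q ^ 2 * (4 * a)) := by ring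
      _ ≤ 10 * (4 * a * (C.size + 16 * k) + q ^ 2 * C.reads) + q ^ 2 * (4 * a) := h3
      _ ≤ 10 * (4 * a * (16 * g) + q ^ 2 * r) + q ^ 2 * (4 * a) := by
          apply Nat.add_le_add_right
          apply Nat.mul_le_mul_left
          exact Nat.add_le_add (Nat.mul_le_mul_left _ h5) (Nat.mul_le_mul_left _ hr)
      _ = 2 * (20 * a * (16 * g)) + 2 * (q ^ 2 * (5 * r)) + q ^ 2 * (4 * a) := by ring
      _ ≤ 2 * (q ^ 2 * T) + 2 * (q ^ 2 * T) + q ^ 2 * (4 * a) := by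
          have := Nat.mul_le_mul_left (q ^ 2) hT
          omega
      _ = _ := by ring
  have h7 : L.length * (4 * a) ≤ 4 * T + 4 * a := Nat.le_of_mul_le_mul_right h6 (by positivity)
  have h8 : a * L.length ≤ T + a := by
    have : L.length * (4 * a) = 4 * (a * L.length) := by ring
    omega
  have h9 : L.length ≤ (T + a) / a := by
    rw [Nat.le_div_iff_mul_le ha, mul_comm]
    exact h8
  rwa [Nat.add_div_right _ ha] at h9

/-- **Random circuits drawn in the plane.** -/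
theorem apsp_crossings : ∃ c : ℕ, ∀ᶠ N : ℕ in Filter.atTop, ∀ (b r g : ℕ), 1 ≤ b →
    ∀ (R : Type) [Fintype R] (α : R → Type) [∀ i, Fintype (α i)]
    (C : (i : R) → Net (Fin N × Fin N) (Fin N × Fin N) (α i)) (inp : (i : R) → ℕ∞ → α i)
    (dec : (i : R) → α i → ℕ∞),
      (∀ i, Fintype.card (α i) ≤ 2 ^ b ∧ (C i).reads ≤ r ∧
        ∃ k, CrossingsLE (C i) k ∧ (C i).size + k ≤ g) →
      (∀ w : Graph N, (∀ p, w p = 1 ∨ w p = ⊤) →
        Nat.card R < 2 * Nat.card {i : R // NetDist (C i) (inp i) (dec i) w}) →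
      N ^ 6 < c * (b ^ 2 * ((r + N ^ 2) * (g + N ^ 2)) * (Nat.log 2 N) ^ 20) := by
  classical
  refine ⟨2 ^ 175, ?_⟩
  filter_upwards [Filter.eventually_ge_atTop (2 ^ 64)] with N hN b r g hb R _ α _ C inp dec hσ hP
  by_contra hcon
  push Not at hcon
  have hN0 : 0 < N := lt_of_lt_of_le (by positivity) hN
  have hlog : 64 ≤ Nat.log 2 N := Nat.le_log_of_pow_le (by norm_num) hN
  obtain ⟨T, hT⟩ : ∃ T, T = 5 * r + N ^ 2 := ⟨_, rfl⟩
  have hT0 : 0 < T := by rw [hT]; positivity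
  obtain ⟨s, hs⟩ : ∃ s, s = Nat.sqrt (20 * base N * (16 * g) / T) := ⟨_, rfl⟩
  have hs2 : s ^ 2 * T ≤ 20 * base N * (16 * g) := by
    have h1 : s ^ 2 ≤ 20 * base N * (16 * g) / T := by
      rw [hs, sq]; exact Nat.sqrt_le _
    exact (Nat.mul_le_mul_right _ h1).trans (Nat.div_mul_le_self _ _)
  have hcon2 := numbers hN0 (by omega : 1 ≤ Nat.log 2 N) (base_le hN0) hb hT hs2 rfl hcon
  obtain ⟨c, m, ℓ, K, e, he, hdet⟩ := apsp_det3 (S := 2500 * b * (5001 + s) + Nat.log 2 N)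
    (T := T) hlog (by omega) (by omega) hcon2
  set X := Jx c (2 ^ ℓ) → Fin (2 ^ m)
  have h1 : ∀ i : R, 2 * Nat.card {x : X // NetDist (C i) (inp i) (dec i) (graph K e x)} ≤
      Nat.card X := by
    intro i
    obtain ⟨hi1, hi2, k, hi3, hi4⟩ := hσ i
    have hd := divided_of_crossings (C i) hi3 hi2 hi4 (base_pos N) hT0 (by omega) hs
    obtain ⟨t, ht⟩ : ∃ t, 2 * (t + 1) = 5000 * (5001 + s) := ⟨2500 * (5001 + s) - 1, by omega⟩
    rw [← ht] at hd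
    refine hdet (α i) (C i) (inp i) (dec i) t b hd hi1 ?_
    have h2 : t + 1 = 2500 * (5001 + s) := by omega
    rw [h2]
    apply Nat.add_le_add_right
    apply le_of_eq
    ring
  have h2 : ∀ x : X, Nat.card R < 2 * Nat.card {i : R // NetDist (C i) (inp i) (dec i)
      (graph K e x)} := fun x => hP _ fun p => graph_eq K e x p
  have h3 : ∑ x : X, Nat.card {i : R // NetDist (C i) (inp i) (dec i) (graph K e x)} =
      ∑ i : R, Nat.card {x : X // NetDist (C i) (inp i) (dec i) (graph K e x)} := by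
    simp only [Nat.card_eq_fintype_card, Fintype.card_subtype, Finset.card_filter]
    exact sum_comm
  have h4 : ∑ _x : X, Nat.card R <
      ∑ x : X, 2 * Nat.card {i : R // NetDist (C i) (inp i) (dec i) (graph K e x)} := by
    apply sum_lt_sum_of_nonempty
    · exact ⟨fun _ => ⟨0, by positivity⟩, mem_univ _⟩
    · intro x _
      exact h2 x
  have h5 : 2 * ∑ i : R, Nat.card {x : X // NetDist (C i) (inp i) (dec i) (graph K e x)} ≤
      Nat.card R * Fintype.card X := by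
    rw [mul_sum]
    calc _ ≤ ∑ _i : R, Fintype.card X := by
          apply sum_le_sum
          intro i _
          have := h1 i
          rwa [Nat.card_eq_fintype_card (α := X)] at this
      _ = _ := by rw [sum_const, card_univ, smul_eq_mul, Nat.card_eq_fintype_card (α := R)]
  rw [← mul_sum, h3] at h4
  rw [sum_const, card_univ, smul_eq_mul] at h4
  rw [mul_comm] at h4
  omega

end Pool.Agent.U514.PD
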