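import Mathlib
import Pool.Agent.U514.PD.Apsp

set_option autoImplicit false

/-!
# All-pairs shortest paths by circuits drawn in the plane: exponents
-/

open Finset

namespace Pool.Agent.U514.PD

open Pool.Agent.Y631.Tr
open Pool.Agent.H537R2.Apsp (Graph)

/-- powers of the logarithm are small -/
theorem log_small (K : ℝ) (m : ℕ) (ε : ℝ) (hε : 0 < ε) :
    ∀ᶠ N : ℕ in Filter.atTop, K * ((Nat.log 2 N : ℝ) + 1) ^ m ≤ (N : ℝ) ^ ε := by
  obtain ⟨δ, hδ⟩ : ∃ δ : ℝ, δ = ε / (2 * (m + 1)) := ⟨_, rfl⟩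
  have hm : (0 : ℝ) < (m : ℝ) + 1 := by positivity
  have hδ0 : 0 < δ := by rw [hδ]; positivity
  obtain ⟨A, hA⟩ : ∃ A : ℝ, A = 2 / δ + 1 := ⟨_, rfl⟩
  have hA0 : 0 < A := by rw [hA]; positivity
  have h1 : Filter.Tendsto (fun N : ℕ => (N : ℝ) ^ (ε / 2)) Filter.atTop Filter.atTop :=
    (tendsto_rpow_atTop (by positivity)).comp tendsto_natCast_atTop_atTop
  filter_upwards [h1.eventually_ge_atTop (|K| * A ^ m), Filter.eventually_ge_atTop 2] with N h2 hN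
  have hN1 : (1 : ℝ) ≤ N := by exact_mod_cast (by omega : 1 ≤ N)
  have hN0 : (0 : ℝ) < N := by linarith
  have h3 : (Nat.log 2 N : ℝ) + 1 ≤ A * (N : ℝ) ^ δ := by
    have h4 : (Nat.log 2 N : ℝ) ≤ Real.log N / Real.log 2 := by
      have h5 : ((2 : ℝ) ^ Nat.log 2 N) ≤ N := by
        exact_mod_cast Nat.pow_log_le_self 2 (by omega : N ≠ 0)
      have h6 := Real.log_le_log (by positivity) h5
      rw [Real.log_pow] at h6
      rw [le_div_iff₀ (Real.log_pos (by norm_num))]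
      exact h6
    have h5 : Real.log N ≤ (N : ℝ) ^ δ / δ := Real.log_le_rpow_div hN0.le hδ0
    have h6 : Real.log N / Real.log 2 ≤ 2 * Real.log N := by
      rw [div_le_iff₀ (Real.log_pos (by norm_num))]
      have h7 : (0.5 : ℝ) ≤ Real.log 2 := by linarith [Real.log_two_gt_d9]
      have h8 : 0 ≤ Real.log N := Real.log_nonneg hN1
      nlinarith
    have h7 : (1 : ℝ) ≤ (N : ℝ) ^ δ := Real.one_le_rpow hN1 hδ0.le
    calc (Nat.log 2 N : ℝ) + 1 ≤ 2 * ((N : ℝ) ^ δ / δ) + (N : ℝ) ^ δ := by linarith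
      _ = A * (N : ℝ) ^ δ := by rw [hA]; ring
  have h4 : ((Nat.log 2 N : ℝ) + 1) ^ m ≤ A ^ m * (N : ℝ) ^ (ε / 2) := by
    calc ((Nat.log 2 N : ℝ) + 1) ^ m ≤ (A * (N : ℝ) ^ δ) ^ m := pow_le_pow_left₀ (by positivity) h3 m
      _ = A ^ m * (N : ℝ) ^ (δ * m) := by
          rw [mul_pow, ← Real.rpow_natCast ((N : ℝ) ^ δ) m, ← Real.rpow_mul hN0.le]
      _ ≤ A ^ m * (N : ℝ) ^ (ε / 2) := by
          apply mul_le_mul_of_nonneg_left _ (by positivity)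
          apply Real.rpow_le_rpow_of_exponent_le hN1
          rw [hδ]
          rw [div_mul_eq_mul_div, div_le_div_iff₀ (by positivity) (by norm_num)]
          nlinarith
  calc K * ((Nat.log 2 N : ℝ) + 1) ^ m ≤ |K| * ((Nat.log 2 N : ℝ) + 1) ^ m :=
        mul_le_mul_of_nonneg_right (le_abs_self K) (by positivity)
    _ ≤ |K| * (A ^ m * (N : ℝ) ^ (ε / 2)) := mul_le_mul_of_nonneg_left h4 (abs_nonneg K)
    _ = (|K| * A ^ m) * (N : ℝ) ^ (ε / 2) := by ring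
    _ ≤ (N : ℝ) ^ (ε / 2) * (N : ℝ) ^ (ε / 2) := mul_le_mul_of_nonneg_right h2 (by positivity)
    _ = (N : ℝ) ^ ε := by rw [← Real.rpow_add hN0]; congr 1; ring

/-- the number of reads is at most the number of wires -/
theorem reads_le_of_arity {ι ω α : Type} (C : Net ι ω α) (κ : ℕ) (h : ∀ g, C.arity g ≤ κ) :
    C.reads ≤ κ * C.size := by
  unfold Net.reads
  calc ∑ g, C.readsAt g ≤ ∑ _g : Fin C.size, κ := by
        apply sum_le_sum
        intro g _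
        unfold Net.readsAt
        refine (card_le_univ _).trans ?_
        rw [Fintype.card_fin]
        exact h g
    _ = _ := by rw [sum_const, card_univ, Fintype.card_fin, smul_eq_mul, mul_comm]

/-- Circuits of bounded fan-in whose words have `O(log N)` bits. -/
theorem apsp_product (c₀ : ℕ) (ε : ℝ) (hε : 0 < ε) : ∀ᶠ N : ℕ in Filter.atTop,
    ∀ (α : Type) [Fintype α] (C : Net (Fin N × Fin N) (Fin N × Fin N) α) (inp : ℕ∞ → α)
      (dec : α → ℕ∞) (k : ℕ), Fintype.card α ≤ N ^ c₀ → (∀ g, C.arity g ≤ c₀) →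
      CrossingsLE C k → (∀ w : Graph N, (∀ p, w p = 1 ∨ w p = ⊤) → NetDist C inp dec w) →
      (N : ℝ) ^ (6 - ε) ≤ (C.size + N ^ 2) * (C.size + k + N ^ 2) := by
  obtain ⟨c, hc⟩ := apsp_crossings
  filter_upwards [hc, log_small (c * ((c₀ + 1) ^ 2) * (c₀ + 1)) 22 ε hε,
    Filter.eventually_ge_atTop 1] with N h1 h2 hN α _ C inp dec k hα hκ hk hC
  have hN0 : (0 : ℝ) < N := by exact_mod_cast hN
  obtain ⟨L, hL⟩ : ∃ L, L = Nat.log 2 N := ⟨_, rfl⟩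
  rw [← hL] at h1 h2
  have hb : Fintype.card α ≤ 2 ^ ((c₀ + 1) * (L + 1)) := by
    refine hα.trans ?_
    have h3 : N ≤ 2 ^ (L + 1) := by
      rw [hL]; exact (Nat.lt_pow_succ_log_self (by norm_num) N).le
    calc N ^ c₀ ≤ (2 ^ (L + 1)) ^ c₀ := Nat.pow_le_pow_left h3 _
      _ = 2 ^ ((L + 1) * c₀) := by rw [pow_mul]
      _ ≤ _ := Nat.pow_le_pow_right (by norm_num) (by nlinarith)
  have h3 := h1 ((c₀ + 1) * (L + 1)) (c₀ * C.size) (C.size + k)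
    (Nat.mul_pos (Nat.succ_pos _) (Nat.succ_pos _)) Unit
    (fun _ => α) (fun _ => C) (fun _ => inp) (fun _ => dec)
    (fun _ => ⟨hb, reads_le_of_arity C c₀ hκ, k, hk, le_refl _⟩)
    (fun w hw => by
      have : Nonempty {i : Unit // NetDist C inp dec w} := ⟨⟨(), hC w hw⟩⟩
      have h4 : 0 < Nat.card {i : Unit // NetDist C inp dec w} := Nat.card_pos
      have h5 : Nat.card Unit = 1 := by simp
      omega)
  have h4 : ((N : ℝ) ^ 6) ≤ c * (((c₀ + 1) * (L + 1)) ^ 2 *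
      ((c₀ * C.size + N ^ 2) * (C.size + k + N ^ 2)) * L ^ 20) := by
    exact_mod_cast h3.le
  have h5 : ((N : ℝ) ^ 6) ≤ (N : ℝ) ^ ε * ((C.size + N ^ 2) * (C.size + k + N ^ 2)) := by
    calc ((N : ℝ) ^ 6) ≤ c * (((c₀ + 1) * (L + 1)) ^ 2 *
          ((c₀ * C.size + N ^ 2) * (C.size + k + N ^ 2)) * L ^ 20) := h4
      _ ≤ c * (((c₀ + 1) * (L + 1)) ^ 2 *
          (((c₀ + 1) * (C.size + N ^ 2)) * (C.size + k + N ^ 2)) * (L + 1) ^ 20) := by
          have e1 : (c₀ * C.size + N ^ 2 : ℝ) ≤ (c₀ + 1) * (C.size + N ^ 2) := by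
            have : (0 : ℝ) ≤ c₀ * N ^ 2 := by positivity
            have : (0 : ℝ) ≤ C.size := by positivity
            nlinarith
          have e2 : ((L : ℝ)) ^ 20 ≤ (L + 1) ^ 20 :=
            pow_le_pow_left₀ (by positivity) (by linarith) 20
          gcongr
      _ = (c * ((c₀ + 1) ^ 2) * (c₀ + 1) * ((L : ℝ) + 1) ^ 22) *
          ((C.size + N ^ 2) * (C.size + k + N ^ 2)) := by ring
      _ ≤ _ := mul_le_mul_of_nonneg_right h2 (by positivity)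
  have h6 : (N : ℝ) ^ (6 - ε) = (N : ℝ) ^ 6 / (N : ℝ) ^ ε := by
    rw [Real.rpow_sub hN0]
    norm_cast
  rw [h6, div_le_iff₀ (by positivity)]
  linarith

/-- Gates and crossings together: `N ^ (3 - ε)`. -/
theorem apsp_planar (c₀ : ℕ) (ε : ℝ) (hε : 0 < ε) : ∀ᶠ N : ℕ in Filter.atTop,
    ∀ (α : Type) [Fintype α] (C : Net (Fin N × Fin N) (Fin N × Fin N) α) (inp : ℕ∞ → α)
      (dec : α → ℕ∞) (k : ℕ), Fintype.card α ≤ N ^ c₀ → (∀ g, C.arity g ≤ c₀) →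
      CrossingsLE C k → (∀ w : Graph N, (∀ p, w p = 1 ∨ w p = ⊤) → NetDist C inp dec w) →
      (N : ℝ) ^ (3 - ε) ≤ C.size + k := by
  obtain ⟨δ, hδ⟩ : ∃ δ, δ = min ε (1 / 2) := ⟨_, rfl⟩
  have hδ0 : 0 < δ := by rw [hδ]; positivity
  have hδ1 : δ ≤ ε := by rw [hδ]; exact min_le_left _ _
  have hδ2 : δ ≤ 1 / 2 := by rw [hδ]; exact min_le_right _ _
  have hlarge : ∀ᶠ N : ℕ in Filter.atTop, (4 : ℝ) ≤ (N : ℝ) ^ δ :=
    ((tendsto_rpow_atTop hδ0).comp tendsto_natCast_atTop_atTop).eventually_ge_atTop 4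
  filter_upwards [apsp_product c₀ δ hδ0, hlarge, Filter.eventually_ge_atTop 1] with
    N h1 h2 hN α _ C inp dec k hα hκ hk hC
  have hN1 : (1 : ℝ) ≤ N := by exact_mod_cast hN
  have hN0 : (0 : ℝ) < N := by linarith
  have h3 := h1 α C inp dec k hα hκ hk hC
  by_contra hcon
  push Not at hcon
  have h4 : ((C.size : ℝ) + k) < (N : ℝ) ^ (3 - δ) :=
    hcon.trans_le (Real.rpow_le_rpow_of_exponent_le hN1 (by linarith))
  have h5 : (N : ℝ) ^ 2 ≤ (N : ℝ) ^ (3 - δ) := by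
    rw [← Real.rpow_natCast (N : ℝ) 2]
    apply Real.rpow_le_rpow_of_exponent_le hN1
    push_cast
    linarith
  have h6 : (0 : ℝ) < (N : ℝ) ^ (3 - δ) := by positivity
  have h7 : ((C.size : ℝ) + N ^ 2) * (C.size + k + N ^ 2) <
      (2 * (N : ℝ) ^ (3 - δ)) * (2 * (N : ℝ) ^ (3 - δ)) := by
    have hk0 : (0 : ℝ) ≤ k := by positivity
    have hs0 : (0 : ℝ) ≤ C.size := by positivity
    apply mul_lt_mul'' <;> first | linarith | positivity
  have h8 : (2 * (N : ℝ) ^ (3 - δ)) * (2 * (N : ℝ) ^ (3 - δ)) ≤ (N : ℝ) ^ (6 - δ) := by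
    calc (2 * (N : ℝ) ^ (3 - δ)) * (2 * (N : ℝ) ^ (3 - δ)) =
          4 * ((N : ℝ) ^ (3 - δ) * (N : ℝ) ^ (3 - δ)) := by ring
      _ ≤ (N : ℝ) ^ δ * ((N : ℝ) ^ (3 - δ) * (N : ℝ) ^ (3 - δ)) :=
          mul_le_mul_of_nonneg_right h2 (by positivity)
      _ = (N : ℝ) ^ (6 - δ) := by
          rw [← Real.rpow_add hN0, ← Real.rpow_add hN0]; congr 1; ring
  linarith

/-- Truly subcubic circuits have more than `N ^ 3` crossings. -/
theorem apsp_subcubic (c₀ : ℕ) (δ ε : ℝ) (hδ : 0 < δ) (hδ1 : δ ≤ 1) (hε : 0 < ε) (hεδ : ε ≤ δ) :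
    ∀ᶠ N : ℕ in Filter.atTop,
    ∀ (α : Type) [Fintype α] (C : Net (Fin N × Fin N) (Fin N × Fin N) α) (inp : ℕ∞ → α)
      (dec : α → ℕ∞) (k : ℕ), Fintype.card α ≤ N ^ c₀ → (∀ g, C.arity g ≤ c₀) →
      CrossingsLE C k → (∀ w : Graph N, (∀ p, w p = 1 ∨ w p = ⊤) → NetDist C inp dec w) →
      (C.size : ℝ) ≤ (N : ℝ) ^ (3 - δ) → (N : ℝ) ^ (3 + δ - ε) ≤ k := by
  have hlarge : ∀ᶠ N : ℕ in Filter.atTop, (4 : ℝ) ≤ (N : ℝ) ^ (ε / 2) :=
    ((tendsto_rpow_atTop (by positivity)).comp tendsto_natCast_atTop_atTop).eventually_ge_atTop 4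
  filter_upwards [apsp_product c₀ (ε / 2) (by positivity), hlarge,
    Filter.eventually_ge_atTop 1] with N h1 h2 hN α _ C inp dec k hα hκ hk hC hs
  have hN1 : (1 : ℝ) ≤ N := by exact_mod_cast hN
  have hN0 : (0 : ℝ) < N := by linarith
  have h3 := h1 α C inp dec k hα hκ hk hC
  by_contra hcon
  push Not at hcon
  have hN2 : (N : ℝ) ^ 2 ≤ (N : ℝ) ^ (3 - δ) := by
    rw [← Real.rpow_natCast (N : ℝ) 2]
    apply Real.rpow_le_rpow_of_exponent_le hN1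
    push_cast
    linarith
  have h4 : (N : ℝ) ^ (3 - δ) ≤ (N : ℝ) ^ (3 + δ - ε) / 4 := by
    rw [le_div_iff₀ (by norm_num)]
    calc (N : ℝ) ^ (3 - δ) * 4 ≤ (N : ℝ) ^ (3 - δ) * (N : ℝ) ^ (ε / 2) :=
          mul_le_mul_of_nonneg_left h2 (by positivity)
      _ = (N : ℝ) ^ (3 - δ + ε / 2) := by rw [← Real.rpow_add hN0]
      _ ≤ _ := Real.rpow_le_rpow_of_exponent_le hN1 (by linarith)
  have h5 : (0 : ℝ) < (N : ℝ) ^ (3 - δ) := by positivity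
  have h6 : (0 : ℝ) < (N : ℝ) ^ (3 + δ - ε) := by positivity
  have hk0 : (0 : ℝ) ≤ k := by positivity
  have hs0 : (0 : ℝ) ≤ C.size := by positivity
  have h7 : ((C.size : ℝ) + N ^ 2) * (C.size + k + N ^ 2) <
      (2 * (N : ℝ) ^ (3 - δ)) * (2 * (N : ℝ) ^ (3 + δ - ε)) := by
    apply mul_lt_mul_of_le_of_lt_of_pos_of_nonneg <;> first | linarith | positivity
  have h8 : (2 * (N : ℝ) ^ (3 - δ)) * (2 * (N : ℝ) ^ (3 + δ - ε)) ≤ (N : ℝ) ^ (6 - ε / 2) := by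
    calc (2 * (N : ℝ) ^ (3 - δ)) * (2 * (N : ℝ) ^ (3 + δ - ε)) =
          4 * ((N : ℝ) ^ (3 - δ) * (N : ℝ) ^ (3 + δ - ε)) := by ring
      _ ≤ (N : ℝ) ^ (ε / 2) * ((N : ℝ) ^ (3 - δ) * (N : ℝ) ^ (3 + δ - ε)) :=
          mul_le_mul_of_nonneg_right h2 (by positivity)
      _ = (N : ℝ) ^ (6 - ε / 2) := by
          rw [← Real.rpow_add hN0, ← Real.rpow_add hN0]; congr 1; ring
  linarith

end Pool.Agent.U514.PD
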