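import Mathlib
import Pool.Agent.U514.PD.Apsp
import Pool.Agent.Y631.TrMv

set_option autoImplicit false

/-!
# Matrix-vector products over a finite field by circuits drawn in the plane

`mv_net3` is `Pool.Agent.Y631.Tr.mv_net` with pieces given by hypothesis.
-/

open Finset

namespace Pool.Agent.U514.PD

open Pool.Agent.Y631.Tr
open Pool.Agent.W896.MO (mv flat LG rows_count sum_ceil bad_count avg_exists card_flat)

variable {F : Type} [Field F] [Fintype F] {n m : ℕ}

/-- One circuit. -/
theorem mv_net3 [DecidableEq F] (M : Fin n → Fin n → F) (hM : LG M)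
    (C : Net (Fin m × Fin n) (Fin m × Fin n) F) (β ν π : ℕ) (hdiv : Divided C β (n / 32) ν)
    (h : Fintype.card F ^ (n * m) ≤ Fintype.card F ^ π *
      Nat.card {v : Fin m × Fin n → F // C.Computes v (mv M v)}) :
    n * m ≤ 16 * (π + β + 1) * ν := by
  classical
  obtain ⟨q, hq⟩ : ∃ q, q = Fintype.card F := ⟨_, rfl⟩
  have hq2 : 2 ≤ q := by rw [hq]; exact Fintype.one_lt_card
  obtain ⟨w, hw⟩ : ∃ w, w = n / 32 := ⟨_, rfl⟩
  rw [← hw] at hdiv
  obtain ⟨L, hL1, hL2, hL3⟩ := hdiv
  obtain ⟨A, hA⟩ : ∃ A, A = univ.filter (fun y : Fin m → Fin n → F =>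
    C.Computes (flat y) (mv M (flat y))) := ⟨_, rfl⟩
  rw [card_flat (F := F) (fun v => C.Computes v (mv M v)), Nat.card_eq_fintype_card,
    Fintype.card_subtype, ← hA, ← hq] at h
  have hY : Fintype.card (Fin m → Fin n → F) = q ^ (n * m) := by
    rw [Fintype.card_fun, Fintype.card_fun, Fintype.card_fin, Fintype.card_fin, ← pow_mul, hq]
  obtain ⟨J, hJ⟩ : ∃ J : Finset (Fin C.size) × Finset (Fin C.size) → Finset (Fin m × Fin n),
    ∀ p, J p = univ.filter (fun o => C.out o ∈ p.1 ∨ C.out o ∈ p.2) := ⟨_, fun _ => rfl⟩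
  have key : ∀ p ∈ L, (J p).card ≤ 16 * (π + β + 1) := by
    intro p hp
    obtain ⟨hcl, hBc, hSw⟩ := hL1 p hp
    have hrc := (C.card_readSet p.1).trans hSw
    have hcount := C.piece_count (flat : (Fin m → Fin n → F) → _) (fun y => mv M (flat y)) A
      (fun y hy => by rw [hA, mem_filter] at hy; exact hy.2) hcl (q ^ ((J p).card / 16)) (J p)
      (fun o ho => by rw [hJ, mem_filter] at ho; exact ho.2) (by
        intro y0 _
        obtain ⟨Q, hQ⟩ : ∃ Q : Fin m → Finset (Fin n), ∀ j, Q j =
          univ.filter (fun k => (j, k) ∈ C.readSet p.1) := ⟨_, fun _ => rfl⟩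
        obtain ⟨J', hJ'⟩ : ∃ J' : Fin m → Finset (Fin n), ∀ j, J' j =
          univ.filter (fun k => (j, k) ∈ J p) := ⟨_, fun _ => rfl⟩
        have hQc : ∀ j, (Q j).card ≤ w := by
          intro j
          refine le_trans ?_ hrc
          rw [hQ]
          refine Finset.card_le_card_of_injOn (fun k => (j, k)) ?_ ?_
          · intro k hk
            rw [mem_coe, mem_filter] at hk
            exact hk.2
          · intro k _ k' _ h2
            exact (Prod.ext_iff.1 h2).2
        have hr := rows_count M hM y0 Q J' univ (fun j _ => by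
          have := hQc j
          omega)
        have hJs : (J p).card ≤ ∑ j ∈ (univ : Finset (Fin m)), (J' j).card := by
          rw [Finset.card_eq_sum_card_fiberwise (f := Prod.fst) (t := univ)
            (fun o _ => mem_coe.2 (mem_univ _))]
          apply Finset.sum_le_sum
          intro j _
          rw [hJ']
          refine Finset.card_le_card_of_injOn Prod.snd ?_ ?_
          · rintro ⟨j', k⟩ ho
            rw [mem_coe, mem_filter] at ho
            rw [mem_coe, mem_filter]
            obtain ⟨h2, h3⟩ := ho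
            simp only at h3
            subst h3
            exact ⟨mem_univ _, h2⟩
          · rintro ⟨j1, k1⟩ h2 ⟨j2, k2⟩ h3 h4
            rw [mem_coe, mem_filter] at h2 h3
            simp only at h2 h3 h4
            rw [h2.2, h3.2, h4]
        have hceil := sum_ceil J' univ hJs
        rw [← hq] at hr
        refine le_trans (Nat.mul_le_mul_left _ (Nat.pow_le_pow_right (by omega) hceil)) ?_
        refine le_trans (Nat.mul_le_mul_right _ ?_) (hr.trans ?_)
        · rw [Nat.card_eq_fintype_card, Fintype.card_subtype]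
          apply card_le_card
          intro y hy
          rw [mem_filter] at hy ⊢
          obtain ⟨-, -, h2, h3⟩ := hy
          refine ⟨mem_univ _, fun j k hk => ?_, fun j o ho => ?_⟩
          · rw [hQ, mem_filter] at hk
            exact h2 (j, k) hk.2
          · rw [hJ', mem_filter] at ho
            exact h3 (j, o) ho.2
        · rw [Nat.card_eq_fintype_card, Fintype.card_subtype]
          apply card_le_card
          intro y hy
          rw [mem_filter] at hy ⊢
          refine ⟨mem_univ _, ?_⟩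
          rintro ⟨j, k⟩ hi
          exact hy.2 j k (by rw [hQ, mem_filter]; exact ⟨mem_univ _, hi⟩))
    rw [← hq, hY] at hcount
    have h2 : q ^ ((J p).card / 16) ≤ q ^ (π + p.2.card) := by
      have h3 : 0 < q ^ (n * m) := by positivity
      refine Nat.le_of_mul_le_mul_left ?_ h3
      calc q ^ (n * m) * q ^ ((J p).card / 16) ≤ (q ^ π * A.card) * q ^ ((J p).card / 16) :=
            Nat.mul_le_mul_right _ h
        _ = q ^ π * (A.card * q ^ ((J p).card / 16)) := by rw [mul_assoc]
        _ ≤ q ^ π * (q ^ p.2.card * q ^ (n * m)) := Nat.mul_le_mul_left _ hcount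
        _ = q ^ (n * m) * q ^ (π + p.2.card) := by rw [pow_add]; ring
    have h3 : (J p).card / 16 ≤ π + p.2.card := (Nat.pow_le_pow_iff_right (by omega)).1 h2
    omega
  have h2 := cover_sum (fun (p : Finset (Fin C.size) × Finset (Fin C.size))
      (o : Fin m × Fin n) => C.out o ∈ p.1 ∨ C.out o ∈ p.2) L univ (fun o _ => hL2 (C.out o))
  rw [card_univ, Fintype.card_prod, Fintype.card_fin, Fintype.card_fin, mul_comm] at h2
  refine h2.trans ?_
  have h8 := List.sum_le_card_nsmul (L.map (fun p => ((univ : Finset (Fin m × Fin n)).filter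
    (fun o => C.out o ∈ p.1 ∨ C.out o ∈ p.2)).card)) (16 * (π + β + 1)) (by
      intro x hx
      obtain ⟨p, hp, rfl⟩ := List.mem_map.1 hx
      have h3 := key p hp
      rw [hJ] at h3
      exact h3)
  rw [List.length_map, smul_eq_mul] at h8
  calc _ ≤ L.length * (16 * (π + β + 1)) := by convert h8
    _ ≤ ν * (16 * (π + β + 1)) := Nat.mul_le_mul_right _ hL3
    _ = _ := by ring

/-- the arithmetic -/
theorem mv_numbers {n m r w g s π ℓ : ℕ} (hw : w = n / 32) (hn : 32 ≤ n)
    (hs : s ^ 2 * (r + w) ≤ 16 * g * w) (hℓ : ℓ * w ≤ 20 * (r + w))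
    (h : n * m ≤ 16 * (π + 5000 * (5001 + s) + 1) * ℓ) :
    n ^ 3 * m ^ 2 ≤ 2 ^ 61 * ((π + 1) * ((r + n) * (g + n * m))) := by
  have hn64 : n ≤ 64 * w := by omega
  have hwn : 32 * w ≤ n := by omega
  obtain ⟨P, hP⟩ : ∃ P, P = π + 5000 * 5001 + 1 := ⟨_, rfl⟩
  have h1 : n ^ 2 * m ≤ 20480 * ((P + 5000 * s) * (r + n)) := by
    calc n ^ 2 * m = n * (n * m) := by ring
      _ ≤ (64 * w) * (16 * (π + 5000 * (5001 + s) + 1) * ℓ) := Nat.mul_le_mul hn64 h
      _ = 1024 * ((P + 5000 * s) * (ℓ * w)) := by rw [hP]; ring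
      _ ≤ 1024 * ((P + 5000 * s) * (20 * (r + w))) := by
          apply Nat.mul_le_mul_left
          exact Nat.mul_le_mul_left _ hℓ
      _ = 20480 * ((P + 5000 * s) * (r + w)) := by ring
      _ ≤ _ := by
          apply Nat.mul_le_mul_left
          apply Nat.mul_le_mul_left
          omega
  have hPle : P ≤ 25005001 * (π + 1) := by rw [hP]; nlinarith
  rcases le_total (5000 * s) P with h2 | h2
  · calc n ^ 3 * m ^ 2 = (n ^ 2 * m) * (n * m) := by ring
      _ ≤ (20480 * ((P + P) * (r + n))) * (g + n * m) := by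
          refine Nat.mul_le_mul (h1.trans ?_) (Nat.le_add_left _ _)
          apply Nat.mul_le_mul_left
          apply Nat.mul_le_mul_right
          omega
      _ ≤ (20480 * ((25005001 * (π + 1) + 25005001 * (π + 1)) * (r + n))) * (g + n * m) := by
          gcongr
      _ = (20480 * 2 * 25005001) * ((π + 1) * ((r + n) * (g + n * m))) := by ring
      _ ≤ _ := Nat.mul_le_mul_right _ (by norm_num)
  · have h3 : n ^ 2 * m ≤ 204800000 * (s * (r + n)) := by
      calc n ^ 2 * m ≤ 20480 * ((P + 5000 * s) * (r + n)) := h1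
        _ ≤ 20480 * ((5000 * s + 5000 * s) * (r + n)) := by gcongr
        _ = _ := by ring
    have h4 : s ^ 2 * (r + n) ≤ 32 * (g * n) := by
      calc s ^ 2 * (r + n) ≤ s ^ 2 * (64 * (r + w)) := by
            apply Nat.mul_le_mul_left
            omega
        _ = 64 * (s ^ 2 * (r + w)) := by ring
        _ ≤ 64 * (16 * g * w) := Nat.mul_le_mul_left _ hs
        _ = 32 * (g * (32 * w)) := by ring
        _ ≤ _ := by
            apply Nat.mul_le_mul_left
            exact Nat.mul_le_mul_left _ hwn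
    have h5 : (n ^ 3 * m ^ 2) * n ≤ (2 ^ 61 * ((π + 1) * ((r + n) * (g + n * m)))) * n := by
      calc (n ^ 3 * m ^ 2) * n = (n ^ 2 * m) ^ 2 := by ring
        _ ≤ (204800000 * (s * (r + n))) ^ 2 := Nat.pow_le_pow_left h3 2
        _ = 204800000 ^ 2 * ((s ^ 2 * (r + n)) * (r + n)) := by ring
        _ ≤ 204800000 ^ 2 * ((32 * (g * n)) * (r + n)) := by gcongr
        _ = (204800000 ^ 2 * 32) * (1 * ((r + n) * g)) * n := by ring
        _ ≤ (2 ^ 61) * ((π + 1) * ((r + n) * (g + n * m))) * n := by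
            apply Nat.mul_le_mul_right
            refine Nat.mul_le_mul (by norm_num) ?_
            refine Nat.mul_le_mul (by omega) ?_
            exact Nat.mul_le_mul_left _ (Nat.le_add_right _ _)
        _ = _ := by ring
    exact Nat.le_of_mul_le_mul_right h5 (by omega)

/-- The division of circuits drawn in the plane, with `w` reads in each piece. -/
theorem divided_reads {ι ω α : Type} (C : Net ι ω α) {k r g w s : ℕ}
    (h : CrossingsLE C k) (hr : C.reads ≤ r) (hg : C.size + k ≤ g) (hw : 0 < w)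
    (hs : s = Nat.sqrt (16 * g * w / (r + w))) :
    ∃ ℓ, Divided C (5000 * (5001 + s)) w ℓ ∧ ℓ * w ≤ 20 * (r + w) := by
  obtain ⟨L, h1, h2, h3⟩ := exists_pieces3 C k h (5001 + s) w (by omega) hw
  refine ⟨L.length, ⟨L, h1, h2, le_refl _⟩, ?_⟩
  obtain ⟨q, hq⟩ : ∃ q, q = 5001 + s := ⟨_, rfl⟩
  rw [← hq] at h3
  have hrw : 0 < r + w := by omega
  have h4 : 16 * g * w ≤ q ^ 2 * (r + w) := by
    have h5 : 16 * g * w / (r + w) < (s + 1) * (s + 1) := by
      rw [hs]; exact Nat.lt_succ_sqrt _
    have h6 : 16 * g * w < (s + 1) * (s + 1) * (r + w) := (Nat.div_lt_iff_lt_mul hrw).1 h5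
    refine h6.le.trans (Nat.mul_le_mul_right _ ?_)
    rw [sq]
    exact Nat.mul_le_mul (by omega) (by omega)
  have h5 : C.size + 16 * k ≤ 16 * g := by omega
  have h6 : (L.length * w) * q ^ 2 ≤ (20 * (r + w)) * q ^ 2 := by
    calc (L.length * w) * q ^ 2 = L.length * (q ^ 2 * w) := by ring
      _ ≤ 10 * (w * (C.size + 16 * k) + q ^ 2 * C.reads) + q ^ 2 * w := h3
      _ ≤ 10 * (w * (16 * g) + q ^ 2 * r) + q ^ 2 * w := by
          apply Nat.add_le_add_right
          apply Nat.mul_le_mul_left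
          exact Nat.add_le_add (Nat.mul_le_mul_left _ h5) (Nat.mul_le_mul_left _ hr)
      _ = 10 * (16 * g * w) + 10 * (q ^ 2 * r) + q ^ 2 * w := by ring
      _ ≤ 10 * (q ^ 2 * (r + w)) + 10 * (q ^ 2 * r) + q ^ 2 * w := by omega
      _ = (20 * r + 11 * w) * q ^ 2 := by ring
      _ ≤ _ := Nat.mul_le_mul_right _ (by omega)
  exact Nat.le_of_mul_le_mul_right h6 (by rw [hq]; positivity)

/-- **Random circuits.** -/
theorem mv_crossings (n : ℕ) (hn : 32 ≤ n) : ∃ Bad : Set (Fin n → Fin n → F),
    Nat.card Bad * 2 ^ (n / 4) ≤ Fintype.card F ^ (n * n) ∧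
    ∀ M, M ∉ Bad → ∀ (m r g π : ℕ) (R : Type) [Fintype R] [Nonempty R]
      (C : R → Net (Fin m × Fin n) (Fin m × Fin n) F),
      (∀ i, (C i).reads ≤ r ∧ ∃ k, CrossingsLE (C i) k ∧ (C i).size + k ≤ g) →
      Nat.card R * Fintype.card F ^ (n * m) ≤ Fintype.card F ^ π *
        Nat.card {u : R × (Fin m × Fin n → F) // (C u.1).Computes u.2 (mv M u.2)} →
      n ^ 3 * m ^ 2 ≤ 2 ^ 61 * ((π + 1) * ((r + n) * (g + n * m))) := by
  classical
  refine ⟨{M | ¬ LG M}, ?_, ?_⟩
  · have h1 := bad_count (F := F) (n := n) (by omega)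
    refine le_trans (le_of_eq ?_) h1
    congr 1
    rw [Nat.card_eq_fintype_card]
    rw [Fintype.card_ofFinset]
    congr 1
  · intro M hM m r g π R _ _ C hC hc
    have hM' : LG M := by
      by_contra h1
      exact hM h1
    obtain ⟨i, hi⟩ := avg_exists (fun i v => (C i).Computes v (mv M v)) (Fintype.card F ^ π) (by
      rw [Nat.card_eq_fintype_card (α := Fin m × Fin n → F), Fintype.card_fun, Fintype.card_prod,
        Fintype.card_fin, Fintype.card_fin, mul_comm m n]
      exact hc)
    rw [Nat.card_eq_fintype_card (α := Fin m × Fin n → F), Fintype.card_fun, Fintype.card_prod,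
        Fintype.card_fin, Fintype.card_fin, mul_comm m n] at hi
    obtain ⟨hi1, k, hi2, hi3⟩ := hC i
    obtain ⟨w, hw⟩ : ∃ w, w = n / 32 := ⟨_, rfl⟩
    have hw0 : 0 < w := by omega
    obtain ⟨ℓ, hd, hℓ⟩ := divided_reads (C i) hi2 hi1 hi3 hw0 rfl
    have h1 := mv_net3 M hM' (C i) (5000 * (5001 + Nat.sqrt (16 * g * w / (r + w)))) ℓ π
      (by rw [← hw]; exact hd) hi
    refine mv_numbers hw hn ?_ hℓ h1
    have h2 : Nat.sqrt (16 * g * w / (r + w)) ^ 2 ≤ 16 * g * w / (r + w) := by
      rw [sq]; exact Nat.sqrt_le _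
    exact (Nat.mul_le_mul_right _ h2).trans (Nat.div_mul_le_self _ _)

end Pool.Agent.U514.PD
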