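import Mathlib
import Pool.Agent.U514.PD.Mv
import Pool.Agent.U514.PD.ApspCor

set_option autoImplicit false

/-!
# Matrix-vector products: the trivial circuits have no crossings, and circuits of bounded fan-in
-/

open Finset

namespace Pool.Agent.U514.PD

open Pool.Agent.Helper770.Crossing Pool.Agent.Y631.Tr
open Pool.Agent.W896.MO (mv)

/-- a graph without edges has a drawing without crossings -/
theorem crossingsLE_zero {ι ω α : Type} (C : Net ι ω α) (h : ∀ a b, ¬ C.Joined a b) :
    CrossingsLE C 0 := by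
  have hE : ∀ e, e ∉ (gateGraph C).edgeSet := by
    intro e he
    induction e with
    | _ a b =>
      rcases ((SimpleGraph.fromRel_adj _ _ _).1 he).2 with h1 | h1
      · exact h a b h1
      · exact h b a h1
  have hA : ∀ u v, ¬ (gateGraph C).Adj u v := fun u v huv => hE s(u, v) huv
  refine ⟨{ pos := fun g => ((g : ℕ) : ℂ)
            pos_injective := fun a b hab => by
              have h1 : ((a : ℕ) : ℂ) = ((b : ℕ) : ℂ) := hab
              exact Fin.ext (by exact_mod_cast h1)
            arc := fun _ _ => 0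
            arc_continuousOn := fun e he => absurd he (hE e)
            arc_injOn := fun e he => absurd he (hE e)
            arc_ends := fun u v huv => absurd huv (hA u v)
            arc_avoids := fun e he => absurd he (hE e) }, ?_, ?_⟩
  · apply Set.Finite.subset (Set.finite_empty)
    rintro x ⟨e, he, -⟩
    exact absurd he (hE e)
  · apply le_of_eq
    rw [Set.ncard_eq_zero (Set.Finite.subset Set.finite_empty (by
      rintro x ⟨e, he, -⟩
      exact absurd he (hE e)))]
    ext x
    constructor
    · rintro ⟨e, he, -⟩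
      exact absurd he (hE e)
    · intro h1
      exact absurd h1 (Set.notMem_empty x)

/-- the circuit in which each output gate reads the `n` entries of its vector -/
def direct {α : Type} (n m : ℕ) (f : Fin n → (Fin n → α) → α) :
    Net (Fin m × Fin n) (Fin m × Fin n) α where
  size := m * n
  arity _ := n
  src g a := Sum.inl ((finProdFinEquiv.symm g).1, a)
  op g u := f (finProdFinEquiv.symm g).2 u
  out o := finProdFinEquiv o
  acyclic g a h hs := by simp at hs

theorem direct_spec {α : Type} (n m : ℕ) (f : Fin n → (Fin n → α) → α) :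
    (direct n m f).size = m * n ∧ (direct n m f).reads = n ^ 2 * m ∧
      CrossingsLE (direct n m f) 0 ∧
      ∀ v, (direct n m f).Computes v (fun o => f o.2 (fun k => v (o.1, k))) := by
  refine ⟨rfl, ?_, crossingsLE_zero _ ?_, ?_⟩
  · have h1 : ∀ g, (direct n m f).readsAt g = n := by
      intro g
      unfold Net.readsAt
      have : (univ.filter (fun a : Fin ((direct n m f).arity g) =>
          ((direct n m f).src g a).isLeft = true)) = univ := by
        apply filter_true_of_mem
        intro a _
        rfl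
      rw [this, card_univ, Fintype.card_fin]
      rfl
    have h2 : (direct n m f).reads = ∑ g : Fin (direct n m f).size, n :=
      Finset.sum_congr rfl (fun g _ => h1 g)
    rw [h2, sum_const, card_univ, Fintype.card_fin, smul_eq_mul]
    have h3 : (direct n m f).size = m * n := rfl
    rw [h3]
    ring
  · rintro a b ⟨x, hx⟩
    have hx' : (Sum.inl ((finProdFinEquiv.symm b).1, x) : (Fin m × Fin n) ⊕ Fin (m * n)) =
      Sum.inr a := hx
    simp at hx'
  · intro v
    refine ⟨fun g => f (finProdFinEquiv.symm g).2 (fun k => v ((finProdFinEquiv.symm g).1, k)),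
      fun g => rfl, fun o => ?_⟩
    have h1 : (direct n m f).out o = finProdFinEquiv o := rfl
    show f (finProdFinEquiv.symm ((direct n m f).out o)).2
      (fun k => v ((finProdFinEquiv.symm ((direct n m f).out o)).1, k)) = _
    rw [h1, Equiv.symm_apply_apply]

variable {F : Type} [Field F] [Fintype F]

omit [Fintype F] in
/-- **Trivial circuits.** -/
theorem mv_direct (n m : ℕ) (M : Fin n → Fin n → F) :
    ∃ C : Net (Fin m × Fin n) (Fin m × Fin n) F, C.size = m * n ∧ C.reads = n ^ 2 * m ∧
      CrossingsLE C 0 ∧ ∀ v, C.Computes v (mv M v) := by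
  obtain ⟨h1, h2, h3, h4⟩ := direct_spec n m (fun i (u : Fin n → F) => ∑ k, M i k * u k)
  exact ⟨_, h1, h2, h3, fun v => h4 v⟩

/-- the arithmetic for bounded fan-in -/
theorem fanin_numbers {n r g κ : ℕ} (hn : 2 ^ 62 * (κ + 1) < n) (hr : r ≤ κ * g)
    (h : n ^ 3 * n ^ 2 ≤ 2 ^ 61 * ((0 + 1) * ((r + n) * (g + n * n)))) :
    n ^ 5 ≤ 2 ^ 62 * ((κ + 1) * g ^ 2) := by
  have hn1 : 1 ≤ n := by omega
  rcases Nat.lt_or_ge g (n * n) with h1 | h1
  · exfalso
    have h2 : n ^ 5 ≤ (2 ^ 62 * (κ + 1)) * n ^ 4 := by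
      calc n ^ 5 = n ^ 3 * n ^ 2 := by ring
        _ ≤ 2 ^ 61 * ((0 + 1) * ((r + n) * (g + n * n))) := h
        _ ≤ 2 ^ 61 * ((0 + 1) * ((κ * (n * n) + n * n) * (n * n + n * n))) := by
            apply Nat.mul_le_mul_left
            apply Nat.mul_le_mul_left
            refine Nat.mul_le_mul ?_ (by omega)
            refine Nat.add_le_add (hr.trans (Nat.mul_le_mul_left _ h1.le)) ?_
            exact Nat.le_mul_of_pos_left n (by omega)
        _ = _ := by ring
    have h3 : (2 ^ 62 * (κ + 1)) * n ^ 4 < n * n ^ 4 :=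
      Nat.mul_lt_mul_of_pos_right hn (by positivity)
    have h4 : n * n ^ 4 = n ^ 5 := by ring
    omega
  · calc n ^ 5 = n ^ 3 * n ^ 2 := by ring
      _ ≤ 2 ^ 61 * ((0 + 1) * ((r + n) * (g + n * n))) := h
      _ ≤ 2 ^ 61 * ((0 + 1) * ((κ * g + g) * (g + g))) := by
          apply Nat.mul_le_mul_left
          apply Nat.mul_le_mul_left
          refine Nat.mul_le_mul ?_ (by omega)
          refine Nat.add_le_add hr ?_
          exact le_trans (Nat.le_mul_of_pos_left n (by omega)) h1
      _ = _ := by ring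

/-- **Bounded fan-in**, for `n` vectors. -/
theorem mv_fanin (n : ℕ) : ∃ Bad : Set (Fin n → Fin n → F),
    Nat.card Bad * 2 ^ (n / 4) ≤ Fintype.card F ^ (n * n) ∧
    ∀ M, M ∉ Bad → (∀ (m r g π : ℕ) (R : Type) [Fintype R] [Nonempty R]
      (C : R → Net (Fin m × Fin n) (Fin m × Fin n) F), 32 ≤ n →
      (∀ i, (C i).reads ≤ r ∧ ∃ k, CrossingsLE (C i) k ∧ (C i).size + k ≤ g) →
      Nat.card R * Fintype.card F ^ (n * m) ≤ Fintype.card F ^ π *
        Nat.card {u : R × (Fin m × Fin n → F) // (C u.1).Computes u.2 (mv M u.2)} →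
      n ^ 3 * m ^ 2 ≤ 2 ^ 61 * ((π + 1) * ((r + n) * (g + n * m)))) ∧
    ∀ (κ k : ℕ) (C : Net (Fin n × Fin n) (Fin n × Fin n) F), 2 ^ 62 * (κ + 1) < n →
      (∀ g, C.arity g ≤ κ) → CrossingsLE C k → (∀ v, C.Computes v (mv M v)) →
      n ^ 5 ≤ 2 ^ 62 * ((κ + 1) * (C.size + k) ^ 2) := by
  classical
  by_cases hn : 32 ≤ n
  · obtain ⟨Bad, h1, h2⟩ := mv_crossings (F := F) n hn
    refine ⟨Bad, h1, fun M hM => ⟨fun m r g π R _ _ C _ => h2 M hM m r g π R C, ?_⟩⟩
    intro κ k C hnκ hκ hk hC
    have h3 := h2 M hM n C.reads (C.size + k) 0 Unit (fun _ => C)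
      (fun _ => ⟨le_refl _, k, hk, le_refl _⟩) (by
        rw [pow_zero, one_mul, Nat.card_eq_fintype_card, Fintype.card_unit, one_mul]
        have h4 : Nat.card {u : Unit × (Fin n × Fin n → F) // C.Computes u.2 (mv M u.2)} =
            Nat.card (Unit × (Fin n × Fin n → F)) := by
          apply Nat.card_congr
          exact Equiv.subtypeUnivEquiv fun u => hC u.2
        rw [h4, Nat.card_eq_fintype_card, Fintype.card_prod, Fintype.card_unit, one_mul,
          Fintype.card_fun, Fintype.card_prod, Fintype.card_fin])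
    exact fanin_numbers hnκ ((reads_le_of_arity C κ hκ).trans
      (Nat.mul_le_mul_left _ (Nat.le_add_right _ _))) h3
  · refine ⟨∅, by simp, fun M _ => ⟨fun m r g π R _ _ C h => absurd h hn, ?_⟩⟩
    intro κ k C hnκ
    omega

end Pool.Agent.U514.PD
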