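import Mathlib
import Pool.Agent.U514.PD.Elim
import Pool.Agent.Y631.WcModel

/-!
# Word circuits drawn in the plane: the treewidth
-/

set_option autoImplicit false

namespace Pool.Agent.U514.PD.W

open Finset Pool.Agent.Helper770.Crossing Pool.Agent.Y631.Wc

variable {ι X Z : Type}

/-- the graph of the gates of a word circuit: two gates are adjacent if there is a wire from one of
them to the other (the variables are deleted) -/
def gateGraph (C : WCirc ι X Z) : SimpleGraph (Fin C.size) := SimpleGraph.fromRel C.Joined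

/-- the graph of the gates can be drawn in the plane with at most `k` crossings -/
def CrossingsLE (C : WCirc ι X Z) (k : ℕ) : Prop :=
  ∃ D : Drawing (gateGraph C), D.crossings.Finite ∧ D.crossings.ncard ≤ k

/-- **From an elimination order to a tree decomposition.** -/
theorem tree_of_elim {s : ℕ} (hs : 0 < s) {G : SimpleGraph (Fin s)} {K : ℕ} {rk : Fin s → ℕ}
    {bag : Fin s → Finset (Fin s)} (h : Elim G univ ∅ K rk bag) :
    ∃ (T : ℕ) (par : Fin (T + 1) → Fin (T + 1)) (nb : Fin (T + 1) → Finset (Fin s)),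
    (∀ i, 0 < i → par i < i) ∧ (∀ i, (nb i).card ≤ K) ∧
    (∀ v, ∃! i, v ∈ nb i ∧ (i = 0 ∨ v ∉ nb (par i))) ∧
    (∀ u v, G.Adj u v → ∃ i, u ∈ nb i ∧ v ∈ nb i) := by
  classical
  obtain ⟨T, rfl⟩ : ∃ T, s = T + 1 := ⟨s - 1, by omega⟩
  have hlt : ∀ z, rk z < T + 1 := fun z => by
    have := h.lt z (mem_univ z)
    rwa [card_univ, Fintype.card_fin] at this
  have hinj : Function.Injective (fun z => (⟨rk z, hlt z⟩ : Fin (T + 1))) := by
    intro a b hab
    exact h.inj a (mem_univ a) b (mem_univ b) (Fin.mk.inj hab)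
  have hbij : Function.Bijective (fun z => (⟨rk z, hlt z⟩ : Fin (T + 1))) :=
    (Finite.injective_iff_bijective).1 hinj
  obtain ⟨e, he⟩ : ∃ e : Fin (T + 1) → Fin (T + 1), ∀ i, rk (e i) = i := by
    choose e he using hbij.2
    exact ⟨e, fun i => congrArg Fin.val (he i)⟩
  have he2 : ∀ z, e ⟨rk z, hlt z⟩ = z := fun z => hinj (Fin.ext (by simp [he]))
  have hsub : ∀ z, ∀ x ∈ bag z, rk x ≤ rk z := by
    intro z x hx
    rcases h.sub z (mem_univ z) x hx with h1 | h1
    · exact absurd h1 (notMem_empty _)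
    · exact h1.2
  -- the parent
  have hpar : ∀ i : Fin (T + 1), ∃ p : Fin (T + 1), (0 < i → p < i) ∧
      ∀ x ∈ bag (e i), x ≠ e i → x ∈ bag (e p) := by
    intro i
    by_cases hne : ((bag (e i)).erase (e i)).Nonempty
    · obtain ⟨y, hy, hmax⟩ := exists_max_image _ rk hne
      rw [mem_erase] at hy
      have hlt2 : rk y < i := by
        have h1 := hsub _ _ hy.2
        rw [he] at h1
        refine lt_of_le_of_ne h1 fun h2 => hy.1 ?_
        apply h.inj y (mem_univ _) _ (mem_univ _)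
        rw [he, h2]
      refine ⟨⟨rk y, hlt y⟩, fun _ => hlt2, fun x hx hxe => ?_⟩
      rw [he2]
      exact h.chord _ (mem_univ _) y hy.2 (mem_univ _) x hx
        (Or.inr (hmax x (mem_erase.2 ⟨hxe, hx⟩)))
    · refine ⟨0, fun h => h, fun x hx hxe => absurd ⟨x, mem_erase.2 ⟨hxe, hx⟩⟩ hne⟩
  choose par hp1 hp2 using hpar
  refine ⟨T, par, fun i => bag (e i), fun i hi => hp1 i hi, fun i => h.card _ (mem_univ _), ?_, ?_⟩
  · intro v
    refine ⟨⟨rk v, hlt v⟩, ⟨?_, ?_⟩, ?_⟩
    · show v ∈ bag (e ⟨rk v, hlt v⟩)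
      rw [he2]
      exact h.self v (mem_univ _)
    · by_cases h0 : (⟨rk v, hlt v⟩ : Fin (T + 1)) = 0
      · exact Or.inl h0
      · right
        intro hv
        have h1 := hsub _ _ hv
        rw [he] at h1
        have h2 := hp1 ⟨rk v, hlt v⟩ (Fin.pos_of_ne_zero h0)
        have h3 : (par ⟨rk v, hlt v⟩ : ℕ) < rk v := h2
        omega
    · rintro i ⟨hi1, hi2⟩
      by_contra hne
      have h1 : v ≠ e i := by
        rintro rfl
        apply hne
        exact Fin.ext (he i).symm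
      have h2 : i ≠ 0 := by
        rintro rfl
        have h3 := hsub _ _ hi1
        rw [he] at h3
        apply h1
        apply h.inj _ (mem_univ _) _ (mem_univ _)
        rw [he]
        have h4 : ((0 : Fin (T + 1)) : ℕ) = 0 := rfl
        omega
      rcases hi2 with h3 | h3
      · exact h2 h3
      · exact h3 (hp2 i v hi1 h1)
  · intro u v huv
    rcases h.adjI u (mem_univ _) v (mem_univ _) huv with h1 | h1
    · refine ⟨⟨rk u, hlt u⟩, ?_, ?_⟩
      · show u ∈ bag (e ⟨rk u, hlt u⟩)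
        rw [he2]
        exact h.self u (mem_univ _)
      · show v ∈ bag (e ⟨rk u, hlt u⟩)
        rw [he2]
        exact h1
    · refine ⟨⟨rk v, hlt v⟩, ?_, ?_⟩
      · show u ∈ bag (e ⟨rk v, hlt v⟩)
        rw [he2]
        exact h1
      · show v ∈ bag (e ⟨rk v, hlt v⟩)
        rw [he2]
        exact h.self v (mem_univ _)

/-- **The treewidth of a drawn circuit.** -/
theorem treewidth_of_drawn (C : WCirc ι X Z) (k : ℕ) (h : CrossingsLE C k) :
    ∃ θ, C.TreewidthLE θ ∧ θ + 1 ≤ 204 * (Nat.sqrt (C.size + k) + 1) := by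
  classical
  obtain ⟨D, hfin, hk⟩ := h
  obtain ⟨n, hn⟩ : ∃ n, n = C.size + k := ⟨_, rfl⟩
  obtain ⟨R, hR⟩ : ∃ R, R = 9 * (Nat.sqrt n + 1) := ⟨_, rfl⟩
  have h1 : n < (Nat.sqrt n + 1) * (Nat.sqrt n + 1) := Nat.lt_succ_sqrt n
  have hR2 : 5 * (Fintype.card (Fin C.size) + 16 * D.crossings.ncard) ≤ R ^ 2 := by
    rw [Fintype.card_fin]
    calc 5 * (C.size + 16 * D.crossings.ncard) ≤ 80 * n := by omega
      _ ≤ 81 * ((Nat.sqrt n + 1) * (Nat.sqrt n + 1)) := by omega
      _ = R ^ 2 := by rw [hR]; ring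
  obtain ⟨rk, bag, he⟩ := exists_elim D hfin R (by omega) hR2 _ univ ∅ rfl (by simp)
    (by simp) (by simp)
  have hs : 0 < C.size := by
    have := C.out.2
    omega
  obtain ⟨T, par, nb, t1, t2, t3, t4⟩ := tree_of_elim hs he
  refine ⟨20 * R + 3, ⟨T, par, nb, t1, fun i => ?_, t3, fun a b hab => ?_⟩, ?_⟩
  · have := t2 i
    omega
  · have hne : a ≠ b := by
      obtain ⟨c, hc⟩ := hab
      have := C.acyclic b c
      rw [hc] at this
      exact this.ne
    exact t4 a b ((SimpleGraph.fromRel_adj _ _ _).2 ⟨hne, Or.inl hab⟩)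
  · rw [← hn, hR]
    omega

end Pool.Agent.U514.PD.W
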