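import Mathlib
import Pool.Agent.U514.PD.Tw
import Pool.Agent.Y631.WcSup

/-!
# Word circuits drawn in the plane: numbers
-/

set_option autoImplicit false

namespace Pool.Agent.U514.PD.W

open Finset Pool.Agent.Y631.Wc

variable {ι X Z : Type}

theorem reads_exponent (r κ θ s : ℕ) (h : θ + 1 ≤ 204 * (Nat.sqrt s + 1)) :
    10000 * r ^ 2 * (κ + 1) * (θ + 1) ≤ 2040000 * (r ^ 2 * (κ + 1) * (Nat.sqrt s + 1)) := by
  calc 10000 * r ^ 2 * (κ + 1) * (θ + 1)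
      ≤ 10000 * r ^ 2 * (κ + 1) * (204 * (Nat.sqrt s + 1)) := Nat.mul_le_mul_left _ h
    _ = _ := by ring

/-- **The quadratic bound.** -/
theorem quadratic {m r κ θ s b q : ℕ} (hr : 1 ≤ r) (hs : 1 ≤ s) (hb : 1 ≤ b) (hq : 2 ≤ q)
    (hθ : θ + 1 ≤ 204 * (Nat.sqrt s + 1))
    (h : q ^ (m / 2 ^ (24 * r + 1)) ≤ (q ^ b) ^ (10000 * r ^ 2 * (κ + 1) * (θ + 1)) + 1) :
    m ^ 2 ≤ 2 ^ (48 * r + 46) * (r ^ 4 * (κ + 1) ^ 2 * b ^ 2 * s) := by
  obtain ⟨K, hK⟩ : ∃ K, K = 10000 * r ^ 2 * (κ + 1) * (θ + 1) := ⟨_, rfl⟩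
  obtain ⟨d, hd⟩ : ∃ d, d = m / 2 ^ (24 * r + 1) := ⟨_, rfl⟩
  rw [← hK, ← hd] at h
  have h1 : d ≤ b * K + 1 := by
    by_contra hcon
    exact no_bound hq (by omega) h
  obtain ⟨u, hu⟩ : ∃ u, u = Nat.sqrt s := ⟨_, rfl⟩
  have hu1 : 1 ≤ u := by
    rw [hu]
    exact Nat.le_sqrt.2 (by omega)
  have hus : u * u ≤ s := by
    rw [hu]
    exact Nat.sqrt_le s
  have hKle : K ≤ 2040000 * (r ^ 2 * (κ + 1) * (u + 1)) := by
    rw [hK, hu]
    exact reads_exponent r κ θ s hθ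
  obtain ⟨E, hE⟩ : ∃ E, E = r ^ 2 * (κ + 1) * u * b := ⟨_, rfl⟩
  have hE1 : 1 ≤ E := by
    rw [hE]
    have h2 : 0 < r ^ 2 * (κ + 1) * u * b := by positivity
    omega
  have hbK : b * K ≤ 4080000 * E := by
    calc b * K ≤ b * (2040000 * (r ^ 2 * (κ + 1) * (u + 1))) := Nat.mul_le_mul_left _ hKle
      _ ≤ b * (2040000 * (r ^ 2 * (κ + 1) * (2 * u))) := by
          apply Nat.mul_le_mul_left
          apply Nat.mul_le_mul_left
          apply Nat.mul_le_mul_left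
          omega
      _ = 4080000 * E := by rw [hE]; ring
  have h2 : d + 1 ≤ 2 ^ 22 * E := by
    have : (2 : ℕ) ^ 22 = 4194304 := by norm_num
    omega
  have hpos : 0 < 2 ^ (24 * r + 1) := Nat.pow_pos (by norm_num)
  have h3 : m ≤ 2 ^ (24 * r + 1) * (2 ^ 22 * E) := by
    have h4 : m < (d + 1) * 2 ^ (24 * r + 1) := by
      rw [hd, add_mul, one_mul]
      exact Nat.lt_div_mul_add hpos
    calc m ≤ (d + 1) * 2 ^ (24 * r + 1) := h4.le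
      _ = 2 ^ (24 * r + 1) * (d + 1) := mul_comm _ _
      _ ≤ _ := Nat.mul_le_mul_left _ h2
  calc m ^ 2 ≤ (2 ^ (24 * r + 1) * (2 ^ 22 * E)) ^ 2 := Nat.pow_le_pow_left h3 2
    _ = 2 ^ (48 * r + 46) * (r ^ 4 * (κ + 1) ^ 2 * b ^ 2 * (u * u)) := by
        rw [hE]
        have h4 : (2 : ℕ) ^ (48 * r + 46) = (2 ^ (24 * r + 1)) ^ 2 * (2 ^ 22) ^ 2 := by
          rw [← pow_mul, ← pow_mul, ← pow_add]
          congr 1
          ring
        rw [h4]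
        ring
    _ ≤ _ := by
        apply Nat.mul_le_mul_left
        apply Nat.mul_le_mul_left
        exact hus

theorem tw_mono {C : WCirc ι X Z} {a b : ℕ} (h : C.TreewidthLE a) (hab : a ≤ b) :
    C.TreewidthLE b := by
  obtain ⟨T, par, bag, h1, h2, h3, h4⟩ := h
  exact ⟨T, par, bag, h1, fun i => (h2 i).trans (by omega), h3, h4⟩

/-- **Few gates and crossings give a small treewidth.** -/
theorem width_small (ε : ℝ) (hε : 0 < ε) : ∃ m₀ : ℕ, 1 ≤ m₀ ∧ ∀ m ≥ m₀,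
    ∀ s θ : ℕ, 1 ≤ s → ((s : ℕ) : ℝ) ≤ (m : ℝ) ^ (2 - ε) → θ + 1 ≤ 204 * (Nat.sqrt s + 1) →
      θ ≤ ⌊(m : ℝ) ^ (1 - ε / 3)⌋₊ := by
  have ht : Filter.Tendsto (fun m : ℕ => (m : ℝ) ^ (ε / 6)) Filter.atTop Filter.atTop :=
    (tendsto_rpow_atTop (by positivity)).comp tendsto_natCast_atTop_atTop
  obtain ⟨m₁, hm₁⟩ := (ht.eventually_ge_atTop 408).exists_forall_of_atTop
  refine ⟨max m₁ 1, le_max_right _ _, fun m hm s θ hs1 hs h2 => ?_⟩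
  have h408 := hm₁ m ((le_max_left _ _).trans hm)
  have hm1 : 1 ≤ m := (le_max_right _ _).trans hm
  have hm0 : (0 : ℝ) < m := by exact_mod_cast hm1
  refine Nat.le_floor ?_
  obtain ⟨u, hu⟩ : ∃ u, u = Nat.sqrt s := ⟨_, rfl⟩
  have hu1 : 1 ≤ u := by
    rw [hu]
    exact Nat.le_sqrt.2 (by omega)
  have huu : (u : ℝ) ≤ (m : ℝ) ^ (1 - ε / 2) := by
    have h3 : ((u * u : ℕ) : ℝ) ≤ (m : ℝ) ^ (2 - ε) := by
      refine le_trans ?_ hs
      exact_mod_cast (show u * u ≤ s by rw [hu]; exact Nat.sqrt_le _)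
    have h4 : (m : ℝ) ^ (2 - ε) = ((m : ℝ) ^ (1 - ε / 2)) ^ 2 := by
      rw [← Real.rpow_natCast, ← Real.rpow_mul hm0.le]
      congr 1
      push_cast
      ring
    rw [h4] at h3
    push_cast at h3
    have h5 : 0 ≤ (m : ℝ) ^ (1 - ε / 2) := by positivity
    nlinarith
  have h6 : (θ : ℝ) ≤ 408 * u := by
    have h7 : θ ≤ 408 * u := by
      rw [← hu] at h2
      omega
    exact_mod_cast h7
  calc (θ : ℝ) ≤ 408 * u := h6
    _ ≤ (m : ℝ) ^ (ε / 6) * (m : ℝ) ^ (1 - ε / 2) :=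
        mul_le_mul h408 huu (Nat.cast_nonneg _) (by positivity)
    _ = _ := by
        rw [← Real.rpow_add hm0]
        congr 1
        ring

/-- Averages. -/
theorem average {Ω : Type} [Fintype Ω] (p : Ω → ℝ) (hp : ∀ ω, 0 ≤ p ω) (hp1 : ∑ ω, p ω = 1)
    (f : Ω → ℝ) (b : ℝ) (h : ∀ ω, b ≤ f ω) : b ≤ ∑ ω, p ω * f ω := by
  calc b = ∑ ω, p ω * b := by rw [← Finset.sum_mul, hp1, one_mul]
    _ ≤ ∑ ω, p ω * f ω :=
        Finset.sum_le_sum fun ω _ => mul_le_mul_of_nonneg_left (h ω) (hp ω)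

end Pool.Agent.U514.PD.W
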